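import Mathlib
set_option autoImplicit false
set_option linter.unusedSectionVars false

/-!
# Gaussian weights and a Schur type bound for exponential integrals
-/

namespace Pool.Agent.T9h8.PP

open MeasureTheory Set Complex
open scoped ENNReal NNReal FourierTransform

variable {α : Type*} [Fintype α]

/-- the Gaussian weight -/
noncomputable def gw (δ : ℝ) (y : α → ℝ) : ℝ := ∏ i, Real.exp (-Real.pi * δ * y i ^ 2)

/-- the Gaussian kernel of mass one -/
noncomputable def gk (δ : ℝ) (z : α → ℝ) : ℝ :=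
  ∏ i, ((Real.sqrt δ)⁻¹ * Real.exp (-Real.pi / δ * z i ^ 2))

/-- the character -/
noncomputable def ch (y z : α → ℝ) : ℂ := cexp (2 * Real.pi * I * ((∑ i, y i * z i : ℝ) : ℂ))

theorem ch_norm (y z : α → ℝ) : ‖ch y z‖ = 1 := by
  unfold ch
  have : (2 * Real.pi * I * ((∑ i, y i * z i : ℝ) : ℂ)) =
      ((2 * Real.pi * ∑ i, y i * z i : ℝ) : ℂ) * I := by
    push_cast
    ring
  rw [this, Complex.norm_exp_ofReal_mul_I]

theorem ch_enorm (y z : α → ℝ) : ‖ch y z‖ₑ = 1 := by
  rw [← ofReal_norm, ch_norm, ENNReal.ofReal_one]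

theorem ch_cont : Continuous fun p : (α → ℝ) × (α → ℝ) => ch p.1 p.2 := by
  unfold ch
  fun_prop

theorem ch_meas {X : Type*} [MeasurableSpace X] {f g : X → α → ℝ} (hf : Measurable f)
    (hg : Measurable g) : Measurable fun x => ch (f x) (g x) := by
  have h := ch_cont.measurable.comp (hf.prodMk hg)
  exact h

theorem ch_star (y z : α → ℝ) : star (ch y z) = ch y (-z) := by
  unfold ch
  rw [Complex.star_def, ← Complex.exp_conj]
  congr 1
  simp only [map_mul, Complex.conj_ofReal, Complex.conj_I, map_ofNat, Pi.neg_apply, mul_neg,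
    Finset.sum_neg_distrib, Complex.ofReal_neg]
  ring

theorem ch_add (y z w : α → ℝ) : ch y (z + w) = ch y z * ch y w := by
  unfold ch
  rw [← Complex.exp_add]
  congr 1
  simp only [Pi.add_apply, mul_add, Finset.sum_add_distrib]
  push_cast
  ring

theorem gw_pos (δ : ℝ) (y : α → ℝ) : 0 < gw δ y := Finset.prod_pos fun _ _ => Real.exp_pos _

theorem gw_le (δ : ℝ) (hδ : 0 ≤ δ) (y : α → ℝ) : gw δ y ≤ 1 := by
  unfold gw
  refine Finset.prod_le_one (fun i _ => (Real.exp_pos _).le) fun i _ => ?_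
  rw [Real.exp_le_one_iff]
  have := Real.pi_pos
  have h2 : 0 ≤ Real.pi * δ * y i ^ 2 := by positivity
  linarith

theorem gw_meas (δ : ℝ) : Measurable (gw (α := α) δ) := by
  unfold gw
  fun_prop

theorem gk_nonneg (δ : ℝ) (z : α → ℝ) : 0 ≤ gk δ z :=
  Finset.prod_nonneg fun _ _ => by positivity

theorem gk_meas (δ : ℝ) : Measurable (gk (α := α) δ) := by
  unfold gk
  fun_prop

theorem gk_le (δ : ℝ) (hδ : 0 < δ) (z : α → ℝ) : gk δ z ≤ ∏ _i : α, (Real.sqrt δ)⁻¹ := by
  unfold gk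
  refine Finset.prod_le_prod (fun i _ => by positivity) fun i _ => ?_
  have h1 : Real.exp (-Real.pi / δ * z i ^ 2) ≤ 1 := by
    rw [Real.exp_le_one_iff]
    have := Real.pi_pos
    have h2 : 0 ≤ Real.pi / δ * z i ^ 2 := by positivity
    have h3 : -Real.pi / δ * z i ^ 2 = -(Real.pi / δ * z i ^ 2) := by ring
    linarith
  calc (Real.sqrt δ)⁻¹ * Real.exp (-Real.pi / δ * z i ^ 2) ≤ (Real.sqrt δ)⁻¹ * 1 := by gcongr
    _ = _ := mul_one _

theorem one_dim (δ : ℝ) (hδ : 0 < δ) (s : ℝ) :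
    ∫ x : ℝ, cexp (2 * Real.pi * I * ((x * s : ℝ) : ℂ)) *
      ((Real.exp (-Real.pi * δ * x ^ 2) : ℝ) : ℂ) =
    (((Real.sqrt δ)⁻¹ * Real.exp (-Real.pi / δ * s ^ 2) : ℝ) : ℂ) := by
  have h1 := congrFun (fourier_gaussian_pi (b := (δ : ℂ)) (by simpa using hδ)) (-s)
  rw [Real.fourier_eq'] at h1
  have e1 : (∫ v : ℝ, cexp (((-2 * Real.pi * (inner ℝ v (-s)) : ℝ) : ℂ) * I) •
      cexp (-Real.pi * δ * (v : ℂ) ^ 2)) = ∫ x : ℝ, cexp (2 * Real.pi * I * ((x * s : ℝ) : ℂ)) *
      ((Real.exp (-Real.pi * δ * x ^ 2) : ℝ) : ℂ) := by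
    congr 1
    ext x
    rw [smul_eq_mul]
    congr 1
    · congr 1
      simp only [RCLike.inner_apply, conj_trivial]
      push_cast
      ring
    · push_cast
      rfl
  rw [← e1, h1]
  have h2 : (δ : ℂ) ^ (1 / 2 : ℂ) = ((Real.sqrt δ : ℝ) : ℂ) := by
    rw [Real.sqrt_eq_rpow, Complex.ofReal_cpow hδ.le]
    push_cast
    rfl
  rw [h2]
  push_cast
  congr 1
  · rw [one_div]
  · congr 1
    ring

theorem gauss_ft (δ : ℝ) (hδ : 0 < δ) (z : α → ℝ) :
    ∫ y : α → ℝ, ch y z * ((gw δ y : ℝ) : ℂ) = ((gk δ z : ℝ) : ℂ) := by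
  have h1 : ∀ y : α → ℝ, ch y z * ((gw δ y : ℝ) : ℂ) =
      ∏ i, (cexp (2 * Real.pi * I * ((y i * z i : ℝ) : ℂ)) *
        ((Real.exp (-Real.pi * δ * y i ^ 2) : ℝ) : ℂ)) := by
    intro y
    unfold ch gw
    rw [Finset.prod_mul_distrib, ← Complex.exp_sum]
    congr 1
    · congr 1
      rw [← Finset.mul_sum]
      push_cast
      rfl
    · push_cast
      rfl
  simp_rw [h1]
  rw [integral_fintype_prod_volume_eq_prod (fun i (x : ℝ) =>
    cexp (2 * Real.pi * I * ((x * z i : ℝ) : ℂ)) * ((Real.exp (-Real.pi * δ * x ^ 2) : ℝ) : ℂ))]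
  simp_rw [one_dim δ hδ]
  unfold gk
  push_cast
  rfl

theorem gw_integrable (δ : ℝ) (hδ : 0 < δ) : Integrable (gw (α := α) δ) := by
  unfold gw
  have h := Integrable.fintype_prod (f := fun (_ : α) (x : ℝ) => Real.exp (-Real.pi * δ * x ^ 2))
    (μ := fun _ => volume) (fun _ => by
      have h1 := integrable_exp_neg_mul_sq (b := Real.pi * δ) (by positivity)
      simpa [neg_mul] using h1)
  exact h

theorem gk_integrable (δ : ℝ) (hδ : 0 < δ) : Integrable (gk (α := α) δ) := by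
  unfold gk
  have h := Integrable.fintype_prod (f := fun (_ : α) (x : ℝ) =>
    (Real.sqrt δ)⁻¹ * Real.exp (-Real.pi / δ * x ^ 2))
    (μ := fun _ => volume) (fun _ => by
      have h1 := integrable_exp_neg_mul_sq (b := Real.pi / δ) (by positivity)
      have h2 : (fun x : ℝ => Real.exp (-Real.pi / δ * x ^ 2)) =
          fun x : ℝ => Real.exp (-(Real.pi / δ) * x ^ 2) := by
        ext x; congr 1; ring
      rw [← h2] at h1
      exact h1.const_mul _)
  exact h

theorem gk_int (δ : ℝ) (hδ : 0 < δ) : ∫⁻ z : α → ℝ, ENNReal.ofReal (gk δ z) = 1 := by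
  rw [← ofReal_integral_eq_lintegral_ofReal (gk_integrable δ hδ)
    (Filter.Eventually.of_forall fun z => gk_nonneg δ z)]
  unfold gk
  rw [integral_fintype_prod_volume_eq_prod (fun (_ : α) (x : ℝ) =>
    (Real.sqrt δ)⁻¹ * Real.exp (-Real.pi / δ * x ^ 2))]
  have h1 : ∫ x : ℝ, (Real.sqrt δ)⁻¹ * Real.exp (-Real.pi / δ * x ^ 2) = 1 := by
    rw [integral_const_mul]
    have h2 := integral_gaussian (Real.pi / δ)
    have h3 : (fun x : ℝ => Real.exp (-Real.pi / δ * x ^ 2)) =
        fun x : ℝ => Real.exp (-(Real.pi / δ) * x ^ 2) := by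
      ext x; congr 1; ring
    rw [h3, h2]
    have h4 : Real.pi / (Real.pi / δ) = δ := by
      have := Real.pi_pos
      field_simp
    rw [h4]
    have : Real.sqrt δ ≠ 0 := (Real.sqrt_pos.2 hδ).ne'
    field_simp
  simp [h1]

/-- translates of the kernel -/
theorem gk_int_sub (δ : ℝ) (hδ : 0 < δ) (w : α → ℝ) :
    ∫⁻ z : α → ℝ, ENNReal.ofReal (gk δ (z - w)) = 1 := by
  rw [lintegral_sub_right_eq_self (fun z : α → ℝ => ENNReal.ofReal (gk δ z)) w, gk_int δ hδ]

/-- the weights increase to one -/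
theorem gw_tendsto (y : α → ℝ) :
    Filter.Tendsto (fun j : ℕ => ENNReal.ofReal (gw (1 / ((j : ℝ) + 1)) y)) Filter.atTop
      (nhds 1) := by
  have h1 : Filter.Tendsto (fun j : ℕ => 1 / ((j : ℝ) + 1)) Filter.atTop (nhds 0) :=
    tendsto_one_div_add_atTop_nhds_zero_nat
  have h2 : Continuous fun δ : ℝ => ENNReal.ofReal (gw δ y) := by
    unfold gw
    exact ENNReal.continuous_ofReal.comp (by fun_prop)
  have h3 := (h2.tendsto 0).comp h1
  have h4 : ENNReal.ofReal (gw 0 y) = 1 := by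
    unfold gw
    simp
  rw [h4] at h3
  exact h3

theorem gw_mono (y : α → ℝ) : Monotone fun j : ℕ => ENNReal.ofReal (gw (1 / ((j : ℝ) + 1)) y) := by
  intro a b hab
  apply ENNReal.ofReal_le_ofReal
  unfold gw
  refine Finset.prod_le_prod (fun i _ => (Real.exp_pos _).le) fun i _ => ?_
  rw [Real.exp_le_exp]
  have h1 : 1 / ((b : ℝ) + 1) ≤ 1 / ((a : ℝ) + 1) := by
    apply one_div_le_one_div_of_le
    · positivity
    · have : (a : ℝ) ≤ b := by exact_mod_cast hab
      linarith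
  have h2 : 0 ≤ Real.pi * y i ^ 2 := by
    have := Real.pi_pos
    positivity
  nlinarith

/-- the supremum of the weights times a number -/
theorem gw_iSup (y : α → ℝ) (c : ℝ≥0∞) :
    ⨆ j : ℕ, c * ENNReal.ofReal (gw (1 / ((j : ℝ) + 1)) y) = c := by
  rw [← ENNReal.mul_iSup, iSup_eq_of_tendsto (gw_mono y) (gw_tendsto y), mul_one]

section schur

variable {X : Type*} [MeasurableSpace X] (μ : Measure X) [IsFiniteMeasure μ]
  (φ : X → α → ℝ) (hφ : Measurable φ) (a : X → ℂ) (ha : Measurable a) (ha1 : ∀ x, ‖a x‖ ≤ 1)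

include hφ ha ha1 in
theorem int_a (y : α → ℝ) : Integrable (fun x => a x * ch y (φ x)) μ := by
  refine Integrable.of_bound (ha.mul (ch_meas measurable_const hφ)).aestronglyMeasurable 1
    (Filter.Eventually.of_forall fun x => ?_)
  rw [norm_mul, ch_norm, mul_one]
  exact ha1 x

include hφ ha ha1 in
/-- the weighted energy of an exponential integral -/
theorem energy_gauss (δ : ℝ) (hδ : 0 < δ) (D : ℝ≥0∞)
    (hD : ∀ H : (α → ℝ) → ℝ≥0∞, Measurable H → ∫⁻ x, H (φ x) ∂μ ≤ D * ∫⁻ z, H z) :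
    ∫⁻ y : α → ℝ, ‖∫ x, a x * ch y (φ x) ∂μ‖ₑ ^ 2 * ENNReal.ofReal (gw δ y) ≤ D * μ univ := by
  set G : (α → ℝ) → ℂ := fun y => ∫ x, a x * ch y (φ x) ∂μ with hG
  have hGm : Measurable G := by
    have h1 : StronglyMeasurable (Function.uncurry fun (y : α → ℝ) (x : X) =>
        a x * ch y (φ x)) :=
      ((ha.comp measurable_snd).mul (ch_meas measurable_fst
        (hφ.comp measurable_snd))).stronglyMeasurable
    exact (h1.integral_prod_right (ν := μ)).measurable
  have hGb : ∀ y, ‖G y‖ ≤ μ.real univ := by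
    intro y
    have h := norm_integral_le_of_norm_le_const (μ := μ) (f := fun x => a x * ch y (φ x)) (C := 1)
      (Filter.Eventually.of_forall fun x => by
        rw [norm_mul, ch_norm, mul_one]; exact ha1 x)
    rwa [one_mul] at h
  -- the square as a double integral
  have hsq : ∀ y, ((‖G y‖ ^ 2 : ℝ) : ℂ) = ∫ p : X × X, (a p.1 * star (a p.2)) *
      ch y (φ p.1 - φ p.2) ∂(μ.prod μ) := by
    intro y
    have h1 : ((‖G y‖ ^ 2 : ℝ) : ℂ) = G y * star (G y) := by
      rw [Complex.star_def, Complex.mul_conj, Complex.normSq_eq_norm_sq]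
    have h2 : star (G y) = ∫ x, star (a x) * ch y (-φ x) ∂μ := by
      rw [hG, Complex.star_def, ← integral_conj]
      congr 1
      ext x
      rw [map_mul, ← Complex.star_def, ch_star]
    rw [h1, h2, hG]
    simp only
    rw [← integral_prod_mul]
    congr 1
    ext p
    rw [sub_eq_add_neg, ch_add]
    ring
  -- the weighted integral
  have hint : Integrable (fun y => ‖G y‖ ^ 2 * gw δ y) := by
    refine (gw_integrable δ hδ).bdd_mul (c := (μ.real univ) ^ 2) ?_ ?_
    · exact (hGm.norm.pow_const 2).aestronglyMeasurable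
    · refine Filter.Eventually.of_forall fun y => ?_
      rw [Real.norm_eq_abs, abs_of_nonneg (by positivity)]
      exact pow_le_pow_left₀ (norm_nonneg _) (hGb y) 2
  have hmain : ((∫ y, ‖G y‖ ^ 2 * gw δ y : ℝ) : ℂ) = ∫ p : X × X, (a p.1 * star (a p.2)) *
      ((gk δ (φ p.1 - φ p.2) : ℝ) : ℂ) ∂(μ.prod μ) := by
    rw [← integral_complex_ofReal]
    have h1 : ∀ y, (((‖G y‖ ^ 2 * gw δ y : ℝ)) : ℂ) = ∫ p : X × X, (a p.1 * star (a p.2)) *
        ch y (φ p.1 - φ p.2) * ((gw δ y : ℝ) : ℂ) ∂(μ.prod μ) := by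
      intro y
      rw [integral_mul_const, ← hsq y]
      push_cast
      rfl
    simp_rw [h1]
    rw [integral_integral_swap]
    · congr 1
      ext p
      simp_rw [mul_assoc]
      rw [integral_const_mul, integral_const_mul, gauss_ft δ hδ]
    · have hm : Measurable fun q : (α → ℝ) × (X × X) => (a q.2.1 * star (a q.2.2)) *
          ch q.1 (φ q.2.1 - φ q.2.2) * ((gw δ q.1 : ℝ) : ℂ) := by
        refine Measurable.mul (Measurable.mul (Measurable.mul ?_ ?_) ?_) ?_
        · exact ha.comp (measurable_fst.comp measurable_snd)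
        · exact (continuous_star.measurable.comp ha).comp (measurable_snd.comp measurable_snd)
        · exact ch_meas measurable_fst ((hφ.comp (measurable_fst.comp measurable_snd)).sub
            (hφ.comp (measurable_snd.comp measurable_snd)))
        · exact Complex.measurable_ofReal.comp ((gw_meas δ).comp measurable_fst)
      have hdom : Integrable (fun q : (α → ℝ) × (X × X) => gw δ q.1 * (1 : ℝ))
          (volume.prod (μ.prod μ)) :=
        (gw_integrable δ hδ).mul_prod (integrable_const (1 : ℝ))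
      refine hdom.mono' hm.aestronglyMeasurable (Filter.Eventually.of_forall fun q => ?_)
      show ‖a q.2.1 * star (a q.2.2) * ch q.1 (φ q.2.1 - φ q.2.2) * ((gw δ q.1 : ℝ) : ℂ)‖ ≤
        gw δ q.1 * 1
      rw [norm_mul, norm_mul, norm_mul, ch_norm, norm_star, Complex.norm_real, Real.norm_eq_abs,
        abs_of_pos (gw_pos δ q.1), mul_one, mul_one]
      have h1 := ha1 q.2.1
      have h2 := ha1 q.2.2
      have h3 : ‖a q.2.1‖ * ‖a q.2.2‖ ≤ 1 := mul_le_one₀ h1 (norm_nonneg _) h2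
      calc ‖a q.2.1‖ * ‖a q.2.2‖ * gw δ q.1 ≤ 1 * gw δ q.1 :=
            mul_le_mul_of_nonneg_right h3 (gw_pos δ q.1).le
        _ = _ := one_mul _
  have hle : ENNReal.ofReal (∫ y, ‖G y‖ ^ 2 * gw δ y) ≤
      ∫⁻ p : X × X, ENNReal.ofReal (gk δ (φ p.1 - φ p.2)) ∂(μ.prod μ) := by
    have h1 : 0 ≤ ∫ y, ‖G y‖ ^ 2 * gw δ y := integral_nonneg fun y =>
      mul_nonneg (by positivity) (gw_pos δ y).le
    have h2 : ENNReal.ofReal (∫ y, ‖G y‖ ^ 2 * gw δ y) =
        ‖((∫ y, ‖G y‖ ^ 2 * gw δ y : ℝ) : ℂ)‖ₑ := by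
      rw [← ofReal_norm, Complex.norm_real, Real.norm_eq_abs, abs_of_nonneg h1]
    rw [h2, hmain]
    refine (enorm_integral_le_lintegral_enorm _).trans (lintegral_mono fun p => ?_)
    rw [← ofReal_norm]
    apply ENNReal.ofReal_le_ofReal
    rw [norm_mul, norm_mul, norm_star, Complex.norm_real, Real.norm_eq_abs,
      abs_of_nonneg (gk_nonneg δ _)]
    have h3 : ‖a p.1‖ * ‖a p.2‖ ≤ 1 := mul_le_one₀ (ha1 _) (norm_nonneg _) (ha1 _)
    calc ‖a p.1‖ * ‖a p.2‖ * gk δ (φ p.1 - φ p.2) ≤ 1 * gk δ (φ p.1 - φ p.2) :=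
          mul_le_mul_of_nonneg_right h3 (gk_nonneg δ _)
      _ = _ := one_mul _
  have hend : ∫⁻ p : X × X, ENNReal.ofReal (gk δ (φ p.1 - φ p.2)) ∂(μ.prod μ) ≤ D * μ univ := by
    have hm : Measurable fun p : X × X => ENNReal.ofReal (gk δ (φ p.1 - φ p.2)) := by
      have h1 := (gk_meas (α := α) δ).comp ((hφ.comp measurable_fst).sub (hφ.comp measurable_snd))
      exact h1.ennreal_ofReal
    rw [lintegral_prod_symm _ hm.aemeasurable]
    calc ∫⁻ x', ∫⁻ x, ENNReal.ofReal (gk δ (φ x - φ x')) ∂μ ∂μ ≤ ∫⁻ _x', D ∂μ := by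
          refine lintegral_mono fun x' => ?_
          have h1 := hD (fun z => ENNReal.ofReal (gk δ (z - φ x')))
            (((gk_meas δ).comp (measurable_id.sub_const _)).ennreal_ofReal)
          refine h1.trans (le_of_eq ?_)
          rw [gk_int_sub δ hδ, mul_one]
      _ = D * μ univ := by rw [lintegral_const]
  refine le_trans (le_of_eq ?_) (hle.trans hend)
  rw [ofReal_integral_eq_lintegral_ofReal hint (Filter.Eventually.of_forall fun y =>
    mul_nonneg (by positivity) (gw_pos δ y).le)]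
  refine lintegral_congr fun y => ?_
  rw [ENNReal.ofReal_mul (by positivity), ENNReal.ofReal_pow (norm_nonneg _), ofReal_norm]

include hφ ha ha1 in
/-- the energy of an exponential integral -/
theorem energy (D : ℝ≥0∞)
    (hD : ∀ H : (α → ℝ) → ℝ≥0∞, Measurable H → ∫⁻ x, H (φ x) ∂μ ≤ D * ∫⁻ z, H z) :
    ∫⁻ y : α → ℝ, ‖∫ x, a x * ch y (φ x) ∂μ‖ₑ ^ 2 ≤ D * μ univ := by
  have hGm : Measurable fun y : α → ℝ => ∫ x, a x * ch y (φ x) ∂μ := by
    have h1 : StronglyMeasurable (Function.uncurry fun (y : α → ℝ) (x : X) =>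
        a x * ch y (φ x)) :=
      ((ha.comp measurable_snd).mul (ch_meas measurable_fst
        (hφ.comp measurable_snd))).stronglyMeasurable
    exact (h1.integral_prod_right (ν := μ)).measurable
  have h1 : ∀ y : α → ℝ, ‖∫ x, a x * ch y (φ x) ∂μ‖ₑ ^ 2 =
      ⨆ j : ℕ, ‖∫ x, a x * ch y (φ x) ∂μ‖ₑ ^ 2 * ENNReal.ofReal (gw (1 / ((j : ℝ) + 1)) y) :=
    fun y => (gw_iSup y _).symm
  rw [lintegral_congr h1, lintegral_iSup]
  · refine iSup_le fun j => ?_
    exact energy_gauss μ φ hφ a ha ha1 _ (by positivity) D hD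
  · intro j
    exact (hGm.enorm.pow_const 2).mul (gw_meas _).ennreal_ofReal
  · intro i j hij y
    exact mul_le_mul' le_rfl (gw_mono y hij)

end schur

end Pool.Agent.T9h8.PP
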