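import Mathlib
set_option autoImplicit false
set_option linter.unusedSectionVars false

/-!
# Differences of points of the paraboloid
-/

namespace Pool.Agent.T9h8.PP

open MeasureTheory Set
open scoped ENNReal NNReal

variable {n : ℕ}

/-- the closed cube -/
def Cu (n : ℕ) : Set (Fin n → ℝ) := Icc (-1) 1

theorem Cu_meas : MeasurableSet (Cu n) := measurableSet_Icc

theorem Cu_vol : volume (Cu n) = 2 ^ n := by
  unfold Cu
  rw [Real.volume_Icc_pi]
  simp only [Pi.one_apply, Pi.neg_apply]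
  norm_num

theorem Cu_abs (ξ : Fin n → ℝ) (h : ξ ∈ Cu n) (j : Fin n) : |ξ j| ≤ 1 :=
  abs_le.2 ⟨h.1 j, h.2 j⟩

/-- the paraboloid -/
noncomputable def Ph (ξ : Fin n → ℝ) : Fin (n + 1) → ℝ :=
  Fin.snoc (α := fun _ => ℝ) ξ (∑ j, ξ j ^ 2)

theorem snoc_meas : Measurable fun p : (Fin n → ℝ) × ℝ =>
    (Fin.snoc (α := fun _ => ℝ) p.1 p.2 : Fin (n + 1) → ℝ) := by
  rw [measurable_pi_iff]
  intro i
  refine Fin.lastCases ?_ (fun j => ?_) i
  · simp only [Fin.snoc_last]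
    exact measurable_snd
  · simp only [Fin.snoc_castSucc]
    exact (measurable_pi_apply j).comp measurable_fst

theorem Ph_meas : Measurable (Ph (n := n)) := by
  have h1 : Measurable fun ξ : Fin n → ℝ => (ξ, ∑ j, ξ j ^ 2) := by fun_prop
  exact snoc_meas.comp h1

theorem lint_insert (i : Fin (n + 1)) (F : (Fin (n + 1) → ℝ) → ℝ≥0∞) (hF : Measurable F) :
    ∫⁻ ζ, F ζ = ∫⁻ x : Fin n → ℝ, ∫⁻ s : ℝ, F (i.insertNth (α := fun _ => ℝ) s x) := by
  have h := (volume_preserving_piFinSuccAbove (fun _ : Fin (n + 1) => ℝ) i).symm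
  rw [← h.lintegral_comp hF, Measure.volume_eq_prod]
  exact lintegral_prod_symm _ (hF.comp h.measurable).aemeasurable

theorem lint_snoc (F : (Fin (n + 1) → ℝ) → ℝ≥0∞) (hF : Measurable F) :
    ∫⁻ ζ, F ζ = ∫⁻ x : Fin n → ℝ, ∫⁻ s : ℝ, F (Fin.snoc (α := fun _ => ℝ) x s) := by
  rw [lint_insert (Fin.last n) F hF]
  simp_rw [Fin.insertNth_last']

theorem lin1 (a c : ℝ) (ha : a ≠ 0) (G : ℝ → ℝ≥0∞) (hG : Measurable G) :
    ∫⁻ s : ℝ, G (a * s + c) = ENNReal.ofReal |a⁻¹| * ∫⁻ s : ℝ, G s := by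
  have h1 := lintegral_map (μ := (volume : Measure ℝ)) (f := fun s => G (s + c))
    (g := fun s => a * s) (hG.comp (measurable_id.add_const c)) (measurable_const_mul a)
  rw [Real.map_volume_mul_left ha, lintegral_smul_measure] at h1
  rw [← h1, lintegral_add_right_eq_self (fun s => G s) c]
  rfl

/-- integration of a function of an affine form over the cube -/
theorem slice {m : ℕ} (h : Fin (m + 1) → ℝ) (hh : 0 < ‖h‖) (c : ℝ) (G : ℝ → ℝ≥0∞)
    (hG : Measurable G) :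
    ∫⁻ ξ in Cu (m + 1), G (2 * ∑ j, ξ j * h j + c) ≤
      2 ^ m * ENNReal.ofReal (‖h‖⁻¹) * ∫⁻ s, G s := by
  obtain ⟨i, hi⟩ := Finite.exists_max fun j => |h j|
  have hn : ‖h‖ = |h i| := by
    refine le_antisymm ?_ (norm_le_pi_norm h i)
    exact (pi_norm_le_iff_of_nonneg (abs_nonneg _)).2 hi
  have hi0 : h i ≠ 0 := by
    intro h0
    rw [hn, h0, abs_zero] at hh
    exact lt_irrefl _ hh
  have hm0 : Measurable fun ξ : Fin (m + 1) → ℝ => G (2 * ∑ j, ξ j * h j + c) :=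
    hG.comp (by fun_prop)
  rw [← lintegral_indicator Cu_meas, lint_insert i _ (hm0.indicator Cu_meas)]
  have hpt : ∀ (x : Fin m → ℝ) (s : ℝ), (Cu (m + 1)).indicator
      (fun ξ : Fin (m + 1) → ℝ => G (2 * ∑ j, ξ j * h j + c)) (i.insertNth (α := fun _ => ℝ) s x) ≤
      (Cu m).indicator (fun x => G ((2 * h i) * s + (2 * ∑ j, x j * h (i.succAbove j) + c))) x := by
    intro x s
    by_cases hx : i.insertNth (α := fun _ => ℝ) s x ∈ Cu (m + 1)
    · have hx' : x ∈ Cu m := by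
        constructor
        · intro j
          have := hx.1 (i.succAbove j)
          rwa [Fin.insertNth_apply_succAbove] at this
        · intro j
          have := hx.2 (i.succAbove j)
          rwa [Fin.insertNth_apply_succAbove] at this
      rw [indicator_of_mem hx, indicator_of_mem hx']
      rw [Fin.sum_univ_succAbove _ i, Fin.insertNth_apply_same]
      simp only [Fin.insertNth_apply_succAbove]
      refine le_of_eq ?_
      congr 1
      ring
    · rw [indicator_of_notMem hx]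
      exact zero_le
  calc ∫⁻ x : Fin m → ℝ, ∫⁻ s : ℝ, (Cu (m + 1)).indicator
        (fun ξ : Fin (m + 1) → ℝ => G (2 * ∑ j, ξ j * h j + c))
          (i.insertNth (α := fun _ => ℝ) s x)
      ≤ ∫⁻ x : Fin m → ℝ, (Cu m).indicator
          (fun _ => ENNReal.ofReal (‖h‖⁻¹) * ∫⁻ s, G s) x := by
        refine lintegral_mono fun x => ?_
        refine (lintegral_mono (hpt x)).trans ?_
        by_cases hx : x ∈ Cu m
        · simp only [indicator_of_mem hx]
          rw [lin1 (2 * h i) _ (mul_ne_zero two_ne_zero hi0) G hG]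
          refine mul_le_mul' (ENNReal.ofReal_le_ofReal ?_) le_rfl
          rw [hn, abs_inv, abs_mul, abs_two]
          have : 0 < |h i| := abs_pos.2 hi0
          exact inv_anti₀ this (by linarith)
        · simp only [indicator_of_notMem hx]
          simp
    _ = _ := by
        rw [lintegral_indicator_const Cu_meas, Cu_vol]
        ring

/-- the pairs of points of the cube at distance about `2^(-k)` -/
def Ek (n k : ℕ) : Set ((Fin n → ℝ) × (Fin n → ℝ)) :=
  {p | (2 ^ k : ℝ)⁻¹ < ‖p.1 - p.2‖ ∧ ‖p.1 - p.2‖ ≤ 2 * (2 ^ k : ℝ)⁻¹}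

theorem Ek_meas (k : ℕ) : MeasurableSet (Ek n k) := by
  have h1 : Measurable fun p : (Fin n → ℝ) × (Fin n → ℝ) => ‖p.1 - p.2‖ := by fun_prop
  exact (measurableSet_lt measurable_const h1).inter (measurableSet_le h1 measurable_const)

theorem Ek_disj : Pairwise (Function.onFun Disjoint (Ek n)) := by
  have key : ∀ a b : ℕ, a < b → Disjoint (Ek n a) (Ek n b) := by
    intro a b hab
    rw [Set.disjoint_left]
    rintro p ⟨h1, _⟩ ⟨_, h4⟩
    have h5 : 2 * (2 ^ b : ℝ)⁻¹ ≤ (2 ^ a : ℝ)⁻¹ := by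
      have h6 : (2 ^ a : ℝ) * 2 ≤ 2 ^ b := by
        rw [← pow_succ]
        exact pow_le_pow_right₀ (by norm_num) hab
      rw [← div_eq_mul_inv, div_le_iff₀ (by positivity), inv_mul_eq_div, le_div_iff₀ (by positivity)]
      linarith
    linarith
  intro a b hab
  rcases lt_or_gt_of_ne hab with h | h
  · exact key a b h
  · exact (key b a h).symm

theorem Ek_cover (hn : 1 ≤ n) :
    ((volume : Measure ((Fin n → ℝ) × (Fin n → ℝ))).restrict (Cu n ×ˢ Cu n)) (⋃ k, Ek n k)ᶜ = 0 := by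
  have hU : MeasurableSet (⋃ k, Ek n k)ᶜ := (MeasurableSet.iUnion Ek_meas).compl
  rw [Measure.restrict_apply hU]
  have hsub : (⋃ k, Ek n k)ᶜ ∩ (Cu n ×ˢ Cu n) ⊆ {p | p.1 = p.2} := by
    rintro ⟨ξ, η⟩ ⟨h1, h2, h3⟩
    by_contra hne
    apply h1
    have hpos : 0 < ‖ξ - η‖ := norm_pos_iff.2 (sub_ne_zero.2 hne)
    have hle : ‖ξ - η‖ ≤ 2 := by
      refine (pi_norm_le_iff_of_nonneg (by norm_num)).2 fun j => ?_
      have a1 := Cu_abs ξ h2 j
      have a2 := Cu_abs η h3 j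
      rw [Pi.sub_apply, Real.norm_eq_abs]
      refine (abs_sub _ _).trans ?_
      linarith
    have hex : ∃ k : ℕ, (2 ^ k : ℝ)⁻¹ < ‖ξ - η‖ := by
      obtain ⟨k, hk⟩ := exists_pow_lt_of_lt_one hpos (by norm_num : (2 : ℝ)⁻¹ < 1)
      exact ⟨k, by rwa [inv_pow] at hk⟩
    classical
    refine mem_iUnion.2 ⟨Nat.find hex, Nat.find_spec hex, ?_⟩
    rcases Nat.eq_zero_or_pos (Nat.find hex) with h0 | h0
    · show ‖ξ - η‖ ≤ 2 * (2 ^ (Nat.find hex) : ℝ)⁻¹
      rw [h0]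
      simpa using hle
    · have h4 := Nat.find_min hex (Nat.sub_lt h0 one_pos)
      push Not at h4
      refine h4.trans (le_of_eq ?_)
      obtain ⟨j, hj⟩ : ∃ j, Nat.find hex = j + 1 := ⟨Nat.find hex - 1, by omega⟩
      rw [hj, pow_succ]
      simp only [Nat.add_sub_cancel]
      field_simp
  refine measure_mono_null hsub ?_
  have hD : MeasurableSet {p : (Fin n → ℝ) × (Fin n → ℝ) | p.1 = p.2} :=
    measurableSet_eq_fun measurable_fst measurable_snd
  rw [Measure.volume_eq_prod, Measure.measure_prod_null hD]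
  refine Filter.Eventually.of_forall fun x => ?_
  have : Prod.mk x ⁻¹' {p : (Fin n → ℝ) × (Fin n → ℝ) | p.1 = p.2} = {x} := by
    ext y
    simp [eq_comm]
  simp only [this]
  have hne : Nonempty (Fin n) := ⟨⟨0, by omega⟩⟩
  simp

/-- the difference of two points of the paraboloid -/
theorem Ph_sub (η h : Fin n → ℝ) : Ph (η + h) - Ph η =
    Fin.snoc (α := fun _ => ℝ) h (2 * ∑ j, η j * h j + ∑ j, h j ^ 2) := by
  ext i
  refine Fin.lastCases ?_ (fun j => ?_) i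
  · simp only [Ph, Pi.sub_apply, Fin.snoc_last, Pi.add_apply]
    rw [Finset.mul_sum, ← Finset.sum_add_distrib, ← Finset.sum_sub_distrib]
    refine Finset.sum_congr rfl fun j _ => ?_
    ring
  · simp only [Ph, Pi.sub_apply, Fin.snoc_castSucc, Pi.add_apply]
    ring

/-- the box of the differences -/
def Bk (n k : ℕ) : Set (Fin (n + 1) → ℝ) := {ζ | ∀ i, |ζ i| ≤ 4 * n * (2 ^ k : ℝ)⁻¹}

theorem Bk_meas (k : ℕ) : MeasurableSet (Bk n k) := by
  have : Bk n k = ⋂ i, {ζ | |ζ i| ≤ 4 * n * (2 ^ k : ℝ)⁻¹} := by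
    ext ζ
    simp [Bk]
  rw [this]
  exact MeasurableSet.iInter fun i => measurableSet_le (by fun_prop) measurable_const

theorem mem_Bk (hn : 1 ≤ n) (k : ℕ) (ξ η : Fin n → ℝ) (h1 : ξ ∈ Cu n) (h2 : η ∈ Cu n)
    (h3 : ‖ξ - η‖ ≤ 2 * (2 ^ k : ℝ)⁻¹) : Ph ξ - Ph η ∈ Bk n k := by
  have hn' : (1 : ℝ) ≤ n := by exact_mod_cast hn
  have hk : 0 < (2 ^ k : ℝ)⁻¹ := by positivity
  have hj : ∀ j, |ξ j - η j| ≤ 2 * (2 ^ k : ℝ)⁻¹ := fun j => (norm_le_pi_norm (ξ - η) j).trans h3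
  intro i
  refine Fin.lastCases ?_ (fun j => ?_) i
  · simp only [Ph, Pi.sub_apply, Fin.snoc_last]
    rw [← Finset.sum_sub_distrib]
    refine (Finset.abs_sum_le_sum_abs _ _).trans ?_
    calc ∑ j, |ξ j ^ 2 - η j ^ 2| ≤ ∑ _j : Fin n, 4 * (2 ^ k : ℝ)⁻¹ := by
          refine Finset.sum_le_sum fun j _ => ?_
          have e : ξ j ^ 2 - η j ^ 2 = (ξ j - η j) * (ξ j + η j) := by ring
          rw [e, abs_mul]
          have a1 := Cu_abs ξ h1 j
          have a2 := Cu_abs η h2 j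
          have a3 : |ξ j + η j| ≤ 2 := (abs_add_le _ _).trans (by linarith)
          calc |ξ j - η j| * |ξ j + η j| ≤ (2 * (2 ^ k : ℝ)⁻¹) * 2 :=
                mul_le_mul (hj j) a3 (abs_nonneg _) (by positivity)
            _ = _ := by ring
      _ = _ := by
          rw [Finset.sum_const, Finset.card_univ, Fintype.card_fin, nsmul_eq_mul]
          ring
  · simp only [Ph, Pi.sub_apply, Fin.snoc_castSucc]
    refine (hj j).trans ?_
    nlinarith

/-- **The distribution of the differences.** -/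
theorem push (hn : 1 ≤ n) (k : ℕ) (H : (Fin (n + 1) → ℝ) → ℝ≥0∞) (hH : Measurable H) :
    ∫⁻ p in Ek n k, H (Ph p.1 - Ph p.2)
      ∂((volume : Measure ((Fin n → ℝ) × (Fin n → ℝ))).restrict (Cu n ×ˢ Cu n)) ≤
      2 ^ n * 2 ^ k * ∫⁻ ζ in Bk n k, H ζ := by
  obtain ⟨m, rfl⟩ : ∃ m, n = m + 1 := ⟨n - 1, by omega⟩
  set G : (Fin (m + 1 + 1) → ℝ) → ℝ≥0∞ := (Bk (m + 1) k).indicator H with hG
  have hGm : Measurable G := hH.indicator (Bk_meas k)
  set F : (Fin (m + 1) → ℝ) × (Fin (m + 1) → ℝ) → ℝ≥0∞ := fun q =>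
    {h : Fin (m + 1) → ℝ | (2 ^ k : ℝ)⁻¹ < ‖h‖}.indicator (fun h =>
      (Cu (m + 1)).indicator (fun η => G (Fin.snoc (α := fun _ => ℝ) h
        (2 * ∑ j, η j * h j + ∑ j, h j ^ 2))) q.2) q.1 with hF
  have hs1 : MeasurableSet {h : Fin (m + 1) → ℝ | (2 ^ k : ℝ)⁻¹ < ‖h‖} :=
    measurableSet_lt measurable_const measurable_norm
  have hcore : Measurable fun q : (Fin (m + 1) → ℝ) × (Fin (m + 1) → ℝ) =>
      G (Fin.snoc (α := fun _ => ℝ) q.1 (2 * ∑ j, q.2 j * q.1 j + ∑ j, q.1 j ^ 2)) := by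
    have h1 : Measurable fun q : (Fin (m + 1) → ℝ) × (Fin (m + 1) → ℝ) =>
        (q.1, 2 * ∑ j, q.2 j * q.1 j + ∑ j, q.1 j ^ 2) := by fun_prop
    exact hGm.comp (snoc_meas.comp h1)
  have hFm : Measurable F := by
    have h2 : F = {q : (Fin (m + 1) → ℝ) × (Fin (m + 1) → ℝ) |
        (2 ^ k : ℝ)⁻¹ < ‖q.1‖ ∧ q.2 ∈ Cu (m + 1)}.indicator fun q =>
        G (Fin.snoc (α := fun _ => ℝ) q.1 (2 * ∑ j, q.2 j * q.1 j + ∑ j, q.1 j ^ 2)) := by
      ext q
      simp only [hF]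
      by_cases h1 : (2 ^ k : ℝ)⁻¹ < ‖q.1‖
      · rw [indicator_of_mem (show q.1 ∈ {h : Fin (m + 1) → ℝ | (2 ^ k : ℝ)⁻¹ < ‖h‖} from h1)]
        by_cases h3 : q.2 ∈ Cu (m + 1)
        · rw [indicator_of_mem h3, indicator_of_mem (by exact ⟨h1, h3⟩)]
        · rw [indicator_of_notMem h3, indicator_of_notMem (fun h => h3 h.2)]
      · rw [indicator_of_notMem (show q.1 ∉ {h : Fin (m + 1) → ℝ | (2 ^ k : ℝ)⁻¹ < ‖h‖} from h1),
          indicator_of_notMem (fun h => h1 h.1)]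
    rw [h2]
    refine hcore.indicator ?_
    have hq : Measurable fun q : (Fin (m + 1) → ℝ) × (Fin (m + 1) → ℝ) => ‖q.1‖ :=
      measurable_norm.comp measurable_fst
    exact (measurableSet_lt measurable_const hq).inter (measurable_snd Cu_meas)
  have hPm : Measurable fun p : (Fin (m + 1) → ℝ) × (Fin (m + 1) → ℝ) => H (Ph p.1 - Ph p.2) :=
    hH.comp ((Ph_meas.comp measurable_fst).sub (Ph_meas.comp measurable_snd))
  -- the difference variable
  have h1 : ∫⁻ p in Ek (m + 1) k, H (Ph p.1 - Ph p.2) ∂((volume :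
      Measure ((Fin (m + 1) → ℝ) × (Fin (m + 1) → ℝ))).restrict (Cu (m + 1) ×ˢ Cu (m + 1))) ≤
      ∫⁻ h : Fin (m + 1) → ℝ, ∫⁻ η : Fin (m + 1) → ℝ, F (h, η) := by
    have hCC : MeasurableSet (Cu (m + 1) ×ˢ Cu (m + 1)) := Cu_meas.prod Cu_meas
    rw [Measure.restrict_restrict (Ek_meas k), ← lintegral_indicator ((Ek_meas k).inter hCC),
      Measure.volume_eq_prod, lintegral_prod_symm _
        (hPm.indicator ((Ek_meas k).inter hCC)).aemeasurable]
    rw [lintegral_lintegral_swap (f := fun h η => F (h, η)) hFm.aemeasurable]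
    refine lintegral_mono fun η => ?_
    rw [← lintegral_add_left_eq_self (fun ξ : Fin (m + 1) → ℝ =>
      (Ek (m + 1) k ∩ (Cu (m + 1) ×ˢ Cu (m + 1))).indicator
        (fun p => H (Ph p.1 - Ph p.2)) (ξ, η)) η]
    refine lintegral_mono fun h => ?_
    by_cases hp : (η + h, η) ∈ Ek (m + 1) k ∩ (Cu (m + 1) ×ˢ Cu (m + 1))
    · rw [indicator_of_mem hp]
      obtain ⟨⟨h2, h3⟩, h4, h5⟩ := hp
      simp only [add_sub_cancel_left] at h2 h3
      have h6 : Ph (η + h) - Ph η ∈ Bk (m + 1) k := mem_Bk (by omega) k (η + h) η h4 h5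
        (by rwa [add_sub_cancel_left])
      simp only [hF]
      rw [indicator_of_mem (show h ∈ {h : Fin (m + 1) → ℝ | (2 ^ k : ℝ)⁻¹ < ‖h‖} from h2),
        indicator_of_mem (show η ∈ Cu (m + 1) from h5), ← Ph_sub, hG, indicator_of_mem h6]
    · rw [indicator_of_notMem hp]
      exact zero_le
  refine h1.trans ?_
  -- the slices
  have h2 : ∀ h : Fin (m + 1) → ℝ, ∫⁻ η : Fin (m + 1) → ℝ, F (h, η) ≤
      2 ^ (m + 1) * 2 ^ k * ∫⁻ s : ℝ, G (Fin.snoc (α := fun _ => ℝ) h s) := by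
    intro h
    by_cases hh : (2 ^ k : ℝ)⁻¹ < ‖h‖
    · have e1 : ∀ η, F (h, η) = (Cu (m + 1)).indicator (fun η => G (Fin.snoc (α := fun _ => ℝ) h
          (2 * ∑ j, η j * h j + ∑ j, h j ^ 2))) η := by
        intro η
        simp only [hF]
        rw [indicator_of_mem (show h ∈ {h : Fin (m + 1) → ℝ | (2 ^ k : ℝ)⁻¹ < ‖h‖} from hh)]
      simp_rw [e1]
      rw [lintegral_indicator Cu_meas]
      have hpos : 0 < ‖h‖ := lt_trans (by positivity) hh
      have hGs : Measurable fun s : ℝ => G (Fin.snoc (α := fun _ => ℝ) h s) :=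
        hGm.comp (snoc_meas.comp (measurable_const.prodMk measurable_id))
      refine (slice h hpos (∑ j, h j ^ 2) _ hGs).trans (mul_le_mul' (mul_le_mul' ?_ ?_) le_rfl)
      · exact pow_le_pow_right₀ (by norm_num) (by omega)
      · have : ‖h‖⁻¹ ≤ 2 ^ k := by
          rw [inv_le_comm₀ hpos (by positivity)]
          exact hh.le
        refine (ENNReal.ofReal_le_ofReal this).trans (le_of_eq ?_)
        rw [ENNReal.ofReal_pow (by norm_num), ENNReal.ofReal_ofNat]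
    · have e1 : ∀ η, F (h, η) = 0 := by
        intro η
        simp only [hF]
        rw [indicator_of_notMem (show h ∉ {h : Fin (m + 1) → ℝ | (2 ^ k : ℝ)⁻¹ < ‖h‖} from hh)]
      simp_rw [e1]
      simp
  refine (lintegral_mono h2).trans (le_of_eq ?_)
  have hGs : Measurable fun q : (Fin (m + 1) → ℝ) × ℝ =>
      G (Fin.snoc (α := fun _ => ℝ) q.1 q.2) := hGm.comp snoc_meas
  rw [lintegral_const_mul _ hGs.lintegral_prod_right', ← lint_snoc G hGm, hG,
    lintegral_indicator (Bk_meas k)]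

end Pool.Agent.T9h8.PP
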