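import Mathlib
import Pool.Agent.T9h8.PP.Para
set_option autoImplicit false
set_option linter.unusedSectionVars false

/-!
# Linear algebra: sections of the image of a cube, and splitting of the coordinates
-/

namespace Pool.Agent.T9h8.PP

open MeasureTheory Set
open scoped ENNReal NNReal RealInnerProductSpace

/-- the Gram-Schmidt data of the rows of a matrix -/
theorem gs {d : ℕ} (A : Matrix (Fin d) (Fin d) ℝ) (hA : A.det ≠ 0) :
    ∃ (e : Fin d → Fin d → ℝ) (r : Fin d → ℝ), (∀ i, 0 < r i) ∧ ∏ i, r i = |A.det| ∧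
      (∀ l m, |e l m| ≤ 1) ∧ (∀ i, |∑ m, A i m * e i m| = r i) ∧
      ∀ i j, i < j → ∑ m, A i m * e j m = 0 := by
  set f : Fin d → EuclideanSpace ℝ (Fin d) := fun i => WithLp.toLp 2 (A i) with hf
  have hd : Module.finrank ℝ (EuclideanSpace ℝ (Fin d)) = Fintype.card (Fin d) := by simp
  set b := InnerProductSpace.gramSchmidtOrthonormalBasis hd f with hb
  have hin : ∀ i j, ∑ m, A i m * b j m = ⟪b j, f i⟫ := by
    intro i j
    rw [PiLp.inner_apply]
    refine Finset.sum_congr rfl fun m _ => ?_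
    simp [hf]
  have htri : ∀ i j, i < j → ∑ m, A i m * b j m = 0 := by
    intro i j hij
    rw [hin]
    exact InnerProductSpace.gramSchmidtOrthonormalBasis_inv_triangular hd f hij
  set Q : Matrix (Fin d) (Fin d) ℝ := fun l m => b l m with hQ
  have hQQ : Q * Q.transpose = 1 := by
    ext l m
    rw [Matrix.mul_apply, Matrix.one_apply]
    have h1 : ∑ k, Q l k * Q.transpose k m = ⟪b m, b l⟫ := by
      rw [PiLp.inner_apply]
      refine Finset.sum_congr rfl fun k _ => ?_
      simp [hQ]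
    rw [h1, orthonormal_iff_ite.1 b.orthonormal]
    simp only [eq_comm]
  have hdetQ : |Q.det| = 1 := by
    have h1 := congrArg Matrix.det hQQ
    rw [Matrix.det_mul, Matrix.det_transpose, Matrix.det_one] at h1
    have h2 : |Q.det| * |Q.det| = 1 := by rw [← abs_mul, h1, abs_one]
    nlinarith [abs_nonneg Q.det]
  set T : Matrix (Fin d) (Fin d) ℝ := A * Q.transpose with hT
  have hTe : ∀ i j, T i j = ∑ m, A i m * b j m := fun i j => by
    rw [hT, Matrix.mul_apply]
    rfl
  have hdetT : T.det = ∏ i, T i i := by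
    apply Matrix.det_of_isLowerTriangular
    intro i j hij
    have : i < j := hij
    rw [hTe]
    exact htri i j this
  have hdet : |A.det| = ∏ i, |T i i| := by
    rw [← Finset.abs_prod, ← hdetT, hT, Matrix.det_mul, Matrix.det_transpose, abs_mul, hdetQ,
      mul_one]
  refine ⟨fun l m => b l m, fun i => |T i i|, ?_, hdet.symm, ?_, ?_, ?_⟩
  · intro i
    have h1 : ∏ i, |T i i| ≠ 0 := by
      rw [← hdet]
      exact abs_ne_zero.2 hA
    have h2 := Finset.prod_ne_zero_iff.1 h1 i (Finset.mem_univ i)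
    exact lt_of_le_of_ne (abs_nonneg _) (Ne.symm h2)
  · intro l m
    have h1 : ‖b l‖ = 1 := b.orthonormal.1 l
    have h2 := EuclideanSpace.norm_sq_eq (b l)
    rw [h1, one_pow] at h2
    have h3 : ‖(b l) m‖ ^ 2 ≤ ∑ i, ‖(b l) i‖ ^ 2 :=
      Finset.single_le_sum (f := fun i => ‖(b l) i‖ ^ 2) (fun i _ => by positivity)
        (Finset.mem_univ m)
    rw [← h2, Real.norm_eq_abs] at h3
    have h4 : 0 ≤ |(b l) m| := abs_nonneg _
    nlinarith
  · intro i
    show |∑ m, A i m * b i m| = |T i i|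
    rw [hTe]
  · exact htri

theorem area1 (β c ρ : ℝ) (hβ : β ≠ 0) :
    ∫⁻ s : ℝ, {t : ℝ | |t| ≤ ρ}.indicator (fun _ => (1 : ℝ≥0∞)) (β * s + c) =
      ENNReal.ofReal |β⁻¹| * ENNReal.ofReal (2 * ρ) := by
  have hm : MeasurableSet {t : ℝ | |t| ≤ ρ} := measurableSet_le (by fun_prop) measurable_const
  rw [lin1 β c hβ _ (measurable_const.indicator hm), lintegral_indicator_const hm, one_mul]
  have : {t : ℝ | |t| ≤ ρ} = Icc (-ρ) ρ := by
    ext t
    simp [abs_le]
  rw [this, Real.volume_Icc]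
  congr 2
  ring

/-- the area of a parallelogram -/
theorem area2 (β κ γ c c' ρ : ℝ) (hβ : β ≠ 0) (hγ : γ ≠ 0) :
    volume {z : Fin 2 → ℝ | |β * z 0 + κ * z 1 + c| ≤ ρ ∧ |γ * z 1 + c'| ≤ ρ} ≤
      (ENNReal.ofReal |β⁻¹| * ENNReal.ofReal (2 * ρ)) *
        (ENNReal.ofReal |γ⁻¹| * ENNReal.ofReal (2 * ρ)) := by
  set S : Set (Fin 2 → ℝ) := {z | |β * z 0 + κ * z 1 + c| ≤ ρ ∧ |γ * z 1 + c'| ≤ ρ} with hS
  have m1 : Measurable fun z : Fin 2 → ℝ => |β * z 0 + κ * z 1 + c| := by fun_prop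
  have m2 : Measurable fun z : Fin 2 → ℝ => |γ * z 1 + c'| := by fun_prop
  have hSm : MeasurableSet S :=
    (measurableSet_le m1 measurable_const).inter (measurableSet_le m2 measurable_const)
  have hm : MeasurableSet {t : ℝ | |t| ≤ ρ} := measurableSet_le (by fun_prop) measurable_const
  have h := (volume_preserving_finTwoArrow ℝ).symm
  have h1 : volume S = ∫⁻ z : Fin 2 → ℝ, S.indicator (fun _ => (1 : ℝ≥0∞)) z := by
    rw [lintegral_indicator_const hSm, one_mul]
  rw [h1, ← h.lintegral_comp (measurable_const.indicator hSm), Measure.volume_eq_prod]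
  refine (lintegral_prod_symm _
    ((measurable_const.indicator hSm).comp h.measurable).aemeasurable).le.trans ?_
  have hpt : ∀ t s : ℝ, S.indicator (fun _ => (1 : ℝ≥0∞))
      ((MeasurableEquiv.finTwoArrow (α := ℝ)).symm (s, t)) =
      {t : ℝ | |t| ≤ ρ}.indicator (fun _ => (1 : ℝ≥0∞)) (γ * t + c') *
      {t : ℝ | |t| ≤ ρ}.indicator (fun _ => (1 : ℝ≥0∞)) (β * s + (κ * t + c)) := by
    intro t s
    have e0 : (MeasurableEquiv.finTwoArrow (α := ℝ)).symm (s, t) 0 = s := rfl
    have e1 : (MeasurableEquiv.finTwoArrow (α := ℝ)).symm (s, t) 1 = t := rfl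
    simp only [indicator_apply, hS, mem_ofPred_eq, e0, e1, ← add_assoc]
    by_cases a1 : |β * s + κ * t + c| ≤ ρ <;> by_cases a2 : |γ * t + c'| ≤ ρ <;> simp [a1, a2]
  calc ∫⁻ t : ℝ, ∫⁻ s : ℝ, S.indicator (fun _ => (1 : ℝ≥0∞))
        ((MeasurableEquiv.finTwoArrow (α := ℝ)).symm (s, t))
      = ∫⁻ t : ℝ, {t : ℝ | |t| ≤ ρ}.indicator (fun _ => (1 : ℝ≥0∞)) (γ * t + c') *
          (ENNReal.ofReal |β⁻¹| * ENNReal.ofReal (2 * ρ)) := by
        refine lintegral_congr fun t => ?_
        simp_rw [hpt]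
        have m3 : Measurable fun s : ℝ => {t : ℝ | |t| ≤ ρ}.indicator (fun _ => (1 : ℝ≥0∞))
            (β * s + (κ * t + c)) := (measurable_const.indicator hm).comp (by fun_prop)
        rw [lintegral_const_mul _ m3, area1 β _ ρ hβ]
    _ ≤ _ := by
        have m4 : Measurable fun t : ℝ => {t : ℝ | |t| ≤ ρ}.indicator (fun _ => (1 : ℝ≥0∞))
            (γ * t + c') := (measurable_const.indicator hm).comp (by fun_prop)
        rw [lintegral_mul_const _ m4, area1 γ c' ρ hγ, mul_comm]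

/-- the coordinates other than `i` and `j` -/
abbrev Rest {d : ℕ} (i j : Fin d) : Type := {l : Fin d // l ≠ i ∧ l ≠ j}

/-- the splitting of the coordinates -/
theorem exists_split {d : ℕ} (i j : Fin d) (hij : i ≠ j) :
    ∃ σ : Fin 2 ⊕ Rest i j ≃ Fin d, σ (Sum.inl 0) = i ∧ σ (Sum.inl 1) = j ∧
      ∀ b, σ (Sum.inr b) = b.1 := by
  have hb : Function.Bijective (Sum.elim ![i, j] Subtype.val : Fin 2 ⊕ Rest i j → Fin d) := by
    constructor
    · rintro (a | a) (b | b) h
      · fin_cases a <;> fin_cases b <;> simp_all [eq_comm]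
      · exfalso
        fin_cases a
        · exact b.2.1 (by simpa using h.symm)
        · exact b.2.2 (by simpa using h.symm)
      · exfalso
        fin_cases b
        · exact a.2.1 (by simpa using h)
        · exact a.2.2 (by simpa using h)
      · have : a.1 = b.1 := h
        rw [Subtype.ext this]
    · intro l
      by_cases h1 : l = i
      · exact ⟨Sum.inl 0, by simp [h1]⟩
      · by_cases h2 : l = j
        · exact ⟨Sum.inl 1, by simp [h2]⟩
        · exact ⟨Sum.inr ⟨l, h1, h2⟩, rfl⟩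
  exact ⟨Equiv.ofBijective _ hb, rfl, rfl, fun b => rfl⟩

section

variable {d : ℕ} {β : Type} [Fintype β] (σ : Fin 2 ⊕ β ≃ Fin d)

/-- gluing the coordinates -/
def glue (q : (Fin 2 → ℝ) × (β → ℝ)) (l : Fin d) : ℝ := Sum.elim q.1 q.2 (σ.symm l)

theorem glue_inl (q : (Fin 2 → ℝ) × (β → ℝ)) (t : Fin 2) : glue σ q (σ (Sum.inl t)) = q.1 t := by
  simp [glue]

theorem glue_inr (q : (Fin 2 → ℝ) × (β → ℝ)) (t : β) : glue σ q (σ (Sum.inr t)) = q.2 t := by
  simp [glue]

theorem glue_meas : Measurable (glue σ) := by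
  rw [measurable_pi_iff]
  intro l
  obtain ⟨s, rfl⟩ := σ.surjective l
  rcases s with t | t
  · simp_rw [glue_inl]
    exact (measurable_pi_apply t).comp measurable_fst
  · simp_rw [glue_inr]
    exact (measurable_pi_apply t).comp measurable_snd

theorem glue_mp : MeasurePreserving (glue σ) := by
  have h1 := volume_measurePreserving_piCongrLeft (fun _ : Fin d => ℝ) σ
  have h2 := (volume_measurePreserving_sumPiEquivProdPi (fun _ : Fin 2 ⊕ β => ℝ)).symm
  have h3 := h1.comp h2
  have e : glue σ = ((MeasurableEquiv.piCongrLeft (fun _ : Fin d => ℝ) σ) ∘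
      (MeasurableEquiv.sumPiEquivProdPi (fun _ : Fin 2 ⊕ β => ℝ)).symm) := by
    funext q l
    obtain ⟨s, rfl⟩ := σ.surjective l
    rw [Function.comp_apply, MeasurableEquiv.coe_piCongrLeft, Equiv.piCongrLeft_apply_apply]
    rcases s with t | t
    · rw [glue_inl]; rfl
    · rw [glue_inr]; rfl
  rw [e]
  exact h3

/-- splitting the coordinates -/
def spl (x : Fin d → ℝ) : (Fin 2 → ℝ) × (β → ℝ) :=
  (fun t => x (σ (Sum.inl t)), fun b => x (σ (Sum.inr b)))

theorem spl_meas : Measurable (spl σ) := by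
  unfold spl
  fun_prop

theorem spl_glue (q : (Fin 2 → ℝ) × (β → ℝ)) : spl σ (glue σ q) = q := by
  unfold spl
  simp only [glue_inl, glue_inr]

theorem lint_glue (F : (Fin d → ℝ) → ℝ≥0∞) (hF : Measurable F) :
    ∫⁻ x, F x = ∫⁻ z : Fin 2 → ℝ, ∫⁻ w : β → ℝ, F (glue σ (z, w)) := by
  rw [← (glue_mp σ).lintegral_comp hF, Measure.volume_eq_prod]
  exact lintegral_prod _ (hF.comp (glue_meas σ)).aemeasurable

end

/-- the area of a section -/
theorem section_area {d : ℕ} {β : Type} [Fintype β] (σ : Fin 2 ⊕ β ≃ Fin d) (i j : Fin d)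
    (hij : i < j) (hi : σ (Sum.inl 0) = i) (hj : σ (Sum.inl 1) = j)
    (A : Matrix (Fin d) (Fin d) ℝ) (e : Fin d → Fin d → ℝ) (r : Fin d → ℝ) (hr : ∀ i, 0 < r i)
    (he : ∀ l m, |e l m| ≤ 1) (hd : ∀ i, |∑ m, A i m * e i m| = r i)
    (ht : ∀ i j, i < j → ∑ m, A i m * e j m = 0) (ρ : ℝ) (w : β → ℝ) :
    volume {z : Fin 2 → ℝ | ∀ m, |(A.transpose.mulVec (glue σ (z, w))) m| ≤ ρ} ≤
      ENNReal.ofReal ((2 * (d * ρ)) ^ 2) * ENNReal.ofReal ((r i * r j)⁻¹) := by
  set c : Fin d → Fin d → ℝ := fun l i' => ∑ m, A i' m * e l m with hc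
  have hci : c i i ≠ 0 := by
    intro h
    have := hd i
    rw [hc] at h
    simp only at h
    rw [h, abs_zero] at this
    exact (hr i).ne this
  have hcj : c j j ≠ 0 := by
    intro h
    have := hd j
    rw [hc] at h
    simp only at h
    rw [h, abs_zero] at this
    exact (hr j).ne this
  have hcij : c j i = 0 := ht i j hij
  -- the sum over the other coordinates
  set R : Fin d → ℝ := fun l => ∑ b, w b * c l (σ (Sum.inr b)) with hR
  have hexp : ∀ (z : Fin 2 → ℝ) (l : Fin d),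
      ∑ m, (A.transpose.mulVec (glue σ (z, w))) m * e l m =
        z 0 * c l i + z 1 * c l j + R l := by
    intro z l
    have h1 : ∑ m, (A.transpose.mulVec (glue σ (z, w))) m * e l m =
        ∑ i', glue σ (z, w) i' * c l i' := by
      simp only [Matrix.mulVec, dotProduct, Matrix.transpose_apply, Finset.sum_mul]
      rw [Finset.sum_comm]
      refine Finset.sum_congr rfl fun i' _ => ?_
      rw [hc, Finset.mul_sum]
      refine Finset.sum_congr rfl fun m _ => ?_
      ring
    rw [h1, ← σ.sum_comp, Fintype.sum_sum_type, Fin.sum_univ_two]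
    simp only [glue_inr, hi, hj, hR]
    have g0 : glue σ (z, w) i = z 0 := by rw [← hi, glue_inl]
    have g1 : glue σ (z, w) j = z 1 := by rw [← hj, glue_inl]
    rw [g0, g1]
  have hsub : {z : Fin 2 → ℝ | ∀ m, |(A.transpose.mulVec (glue σ (z, w))) m| ≤ ρ} ⊆
      {z : Fin 2 → ℝ | |c i i * z 0 + c i j * z 1 + R i| ≤ d * ρ ∧
        |c j j * z 1 + R j| ≤ d * ρ} := by
    intro z hz
    have hbound : ∀ l, |∑ m, (A.transpose.mulVec (glue σ (z, w))) m * e l m| ≤ d * ρ := by
      intro l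
      refine (Finset.abs_sum_le_sum_abs _ _).trans ?_
      calc ∑ m, |(A.transpose.mulVec (glue σ (z, w))) m * e l m| ≤ ∑ _m : Fin d, ρ := by
            refine Finset.sum_le_sum fun m _ => ?_
            rw [abs_mul]
            have h1 : |(A.transpose.mulVec (glue σ (z, w))) m| ≤ ρ := hz m
            calc |(A.transpose.mulVec (glue σ (z, w))) m| * |e l m| ≤ ρ * 1 :=
                  mul_le_mul h1 (he l m) (abs_nonneg _) ((abs_nonneg _).trans h1)
              _ = ρ := mul_one _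
        _ = _ := by
            rw [Finset.sum_const, Finset.card_univ, Fintype.card_fin, nsmul_eq_mul]
    refine ⟨?_, ?_⟩
    · have h := hbound i
      rw [hexp] at h
      have e1 : z 0 * c i i + z 1 * c i j + R i = c i i * z 0 + c i j * z 1 + R i := by ring
      rwa [e1] at h
    · have h := hbound j
      rw [hexp, hcij] at h
      have e1 : z 0 * 0 + z 1 * c j j + R j = c j j * z 1 + R j := by ring
      rwa [e1] at h
  refine (measure_mono hsub).trans ((area2 (c i i) (c i j) (c j j) (R i) (R j) (d * ρ)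
    hci hcj).trans ?_)
  have e1 : |(c i i)⁻¹| = (r i)⁻¹ := by rw [abs_inv]; congr 1; exact hd i
  have e2 : |(c j j)⁻¹| = (r j)⁻¹ := by rw [abs_inv]; congr 1; exact hd j
  rw [e1, e2, mul_inv, ENNReal.ofReal_mul (inv_nonneg.2 (hr i).le)]
  have e3 : ENNReal.ofReal (2 * (d * ρ)) * ENNReal.ofReal (2 * (d * ρ)) ≤
      ENNReal.ofReal ((2 * (d * ρ)) ^ 2) := by
    rcases le_total 0 (2 * (d * ρ)) with h | h
    · rw [← ENNReal.ofReal_mul h, ← sq]
    · rw [ENNReal.ofReal_of_nonpos h]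
      simp
  calc ENNReal.ofReal (r i)⁻¹ * ENNReal.ofReal (2 * (d * ρ)) *
        (ENNReal.ofReal (r j)⁻¹ * ENNReal.ofReal (2 * (d * ρ)))
      = (ENNReal.ofReal (2 * (d * ρ)) * ENNReal.ofReal (2 * (d * ρ))) *
        (ENNReal.ofReal (r i)⁻¹ * ENNReal.ofReal (r j)⁻¹) := by ring
    _ ≤ _ := mul_le_mul' e3 le_rfl

end Pool.Agent.T9h8.PP
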