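import Mathlib
import Pool.Agent.T9h8.PP.Gauss
set_option autoImplicit false
set_option linter.unusedSectionVars false

/-!
# Marginals of positive functions with a singular Fourier transform
-/

namespace Pool.Agent.T9h8.PP

open MeasureTheory Set Complex
open scoped ENNReal NNReal

/-- a weighted power inequality for series -/
theorem tsum_pow_le (p s : ℝ) (hp : 1 < p) (hs : 0 < s) : ∃ C : ℝ≥0, ∀ a : ℕ → ℝ≥0∞,
    (∑' k, a k) ^ p ≤ C * ∑' k : ℕ, (2 : ℝ≥0∞) ^ (s * (k : ℝ)) * a k ^ p := by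
  have hp0 : 0 < p := by linarith
  set p' : ℝ := p / (p - 1) with hp'
  have hpc : p'.HolderConjugate p := by
    have h1 : p.HolderConjugate p' := (Real.holderConjugate_iff_eq_conjExponent hp).2 rfl
    exact h1.symm
  have hp'0 : 0 < p' := hpc.pos
  set c : ℝ := s * p' / p with hc
  have hc0 : 0 < c := by positivity
  -- the weights are summable
  have hgeo : ∑' k : ℕ, ((2 : ℝ≥0∞) ^ (-(s / p) * k)) ^ p' ≠ ∞ := by
    have h1 : ∀ k : ℕ, ((2 : ℝ≥0∞) ^ (-(s / p) * k)) ^ p' = ((2 : ℝ≥0∞) ^ (-c)) ^ k := by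
      intro k
      rw [← ENNReal.rpow_mul, ← ENNReal.rpow_natCast, ← ENNReal.rpow_mul]
      congr 1
      rw [hc]
      ring
    simp_rw [h1]
    rw [ENNReal.tsum_geometric]
    have h2 : (2 : ℝ≥0∞) ^ (-c) < 1 := by
      rw [ENNReal.rpow_neg]
      rw [ENNReal.inv_lt_one]
      exact ENNReal.one_lt_rpow (by norm_num) hc0
    rw [Ne, ENNReal.inv_eq_top, tsub_eq_zero_iff_le, not_le]
    exact h2
  refine ⟨((∑' k : ℕ, ((2 : ℝ≥0∞) ^ (-(s / p) * k)) ^ p') ^ (p / p')).toNNReal, fun a => ?_⟩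
  rw [ENNReal.coe_toNNReal (ENNReal.rpow_ne_top_of_nonneg (by positivity) hgeo)]
  have h := ENNReal.lintegral_mul_le_Lp_mul_Lq (μ := (Measure.count : Measure ℕ)) hpc
    (f := fun k : ℕ => (2 : ℝ≥0∞) ^ (-(s / p) * k)) (g := fun k => (2 : ℝ≥0∞) ^ (s / p * k) * a k)
    (Measurable.of_discrete).aemeasurable (Measurable.of_discrete).aemeasurable
  simp only [lintegral_count, Pi.mul_apply] at h
  have e1 : ∀ k : ℕ, (2 : ℝ≥0∞) ^ (-(s / p) * k) * ((2 : ℝ≥0∞) ^ (s / p * k) * a k) = a k := by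
    intro k
    rw [← mul_assoc, ← ENNReal.rpow_add _ _ (by norm_num) (by norm_num)]
    have : -(s / p) * k + s / p * k = 0 := by ring
    rw [this, ENNReal.rpow_zero, one_mul]
  simp_rw [e1] at h
  have e2 : ∀ k : ℕ, ((2 : ℝ≥0∞) ^ (s / p * k) * a k) ^ p = (2 : ℝ≥0∞) ^ (s * k) * a k ^ p := by
    intro k
    rw [ENNReal.mul_rpow_of_nonneg _ _ hp0.le, ← ENNReal.rpow_mul]
    congr 2
    field_simp
  simp_rw [e2] at h
  calc (∑' k, a k) ^ p ≤ ((∑' k : ℕ, ((2 : ℝ≥0∞) ^ (-(s / p) * k)) ^ p') ^ (1 / p') *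
        (∑' k : ℕ, (2 : ℝ≥0∞) ^ (s * k) * a k ^ p) ^ (1 / p)) ^ p :=
        ENNReal.rpow_le_rpow h hp0.le
    _ = _ := by
        rw [ENNReal.mul_rpow_of_nonneg _ _ hp0.le, ← ENNReal.rpow_mul, ← ENNReal.rpow_mul]
        congr 1
        · congr 1
          ring
        · rw [one_div_mul_cancel hp0.ne', ENNReal.rpow_one]

section

variable {X : Type*} [MeasurableSpace X] (μ : Measure X) [IsFiniteMeasure μ]
  {α β : Type*} [Fintype α] [Fintype β]
  (φ : X → α → ℝ) (hφ : Measurable φ) (ψ : X → β → ℝ) (hψ : Measurable ψ)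
  (a : X → ℂ) (ha : Measurable a) (ha1 : ∀ x, ‖a x‖ ≤ 1)

/-- the piece of the regularised marginal -/
noncomputable def pc (δ : ℝ) (E : Set X) (y : α → ℝ) : ℂ :=
  ∫ x in E, a x * ch y (φ x) * ((gk δ (ψ x) : ℝ) : ℂ) ∂μ

/-- the weighted measure -/
noncomputable def wm (δ : ℝ) (E : Set X) : Measure X :=
  (μ.restrict E).withDensity fun x => ENNReal.ofReal (gk δ (ψ x))

include hψ in
theorem dens_meas (δ : ℝ) : Measurable fun x => ENNReal.ofReal (gk δ (ψ x)) :=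
  ((gk_meas δ).comp hψ).ennreal_ofReal

include hψ in
theorem wm_lint (δ : ℝ) (E : Set X) (H : X → ℝ≥0∞) (hH : Measurable H) :
    ∫⁻ x, H x ∂(wm μ ψ δ E) = ∫⁻ x in E, ENNReal.ofReal (gk δ (ψ x)) * H x ∂μ := by
  unfold wm
  rw [lintegral_withDensity_eq_lintegral_mul _ (dens_meas ψ hψ δ) hH]
  rfl

include hψ in
theorem wm_fin (δ : ℝ) (hδ : 0 < δ) (E : Set X) : IsFiniteMeasure (wm μ ψ δ E) := by
  constructor
  rw [← lintegral_one, wm_lint μ ψ hψ δ E _ measurable_const]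
  simp only [mul_one]
  calc ∫⁻ x in E, ENNReal.ofReal (gk δ (ψ x)) ∂μ
      ≤ ∫⁻ _x in E, ENNReal.ofReal (∏ _i : β, (Real.sqrt δ)⁻¹) ∂μ :=
        lintegral_mono fun x => ENNReal.ofReal_le_ofReal (gk_le δ hδ _)
    _ < ∞ := by
        rw [lintegral_const, Measure.restrict_apply_univ]
        exact ENNReal.mul_lt_top ENNReal.ofReal_lt_top (measure_lt_top μ E)

include hψ in
theorem pc_eq (δ : ℝ) (E : Set X) (y : α → ℝ) :
    pc μ φ ψ a δ E y = ∫ x, a x * ch y (φ x) ∂(wm μ ψ δ E) := by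
  unfold pc wm
  rw [integral_withDensity_eq_integral_toReal_smul (dens_meas ψ hψ δ)
    (Filter.Eventually.of_forall fun x => ENNReal.ofReal_lt_top)]
  refine integral_congr_ae (Filter.Eventually.of_forall fun x => ?_)
  simp only
  rw [ENNReal.toReal_ofReal (gk_nonneg δ _), Complex.real_smul, mul_comm]

variable (E : Set X) (hE : MeasurableSet E) (Z : Set ((α → ℝ) × (β → ℝ))) (hZ : MeasurableSet Z)
  (D N : ℝ≥0∞)
  (P1 : ∀ H : (α → ℝ) × (β → ℝ) → ℝ≥0∞, Measurable H →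
    ∫⁻ x in E, H (φ x, ψ x) ∂μ ≤ D * ∫⁻ z in Z, H z)
  (P2 : ∀ w, volume {z | (z, w) ∈ Z} ≤ N)

include hψ hZ P1 P2 in
theorem wm_mass (δ : ℝ) (hδ : 0 < δ) : wm μ ψ δ E univ ≤ D * N := by
  rw [← lintegral_one, wm_lint μ ψ hψ δ E _ measurable_const]
  simp only [mul_one]
  have hm : Measurable fun z : (α → ℝ) × (β → ℝ) => ENNReal.ofReal (gk δ z.2) :=
    ((gk_meas δ).comp measurable_snd).ennreal_ofReal
  refine (P1 (fun z => ENNReal.ofReal (gk δ z.2)) hm).trans (mul_le_mul' le_rfl ?_)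
  rw [← lintegral_indicator hZ, Measure.volume_eq_prod,
    lintegral_prod_symm _ (hm.indicator hZ).aemeasurable]
  calc ∫⁻ w : β → ℝ, ∫⁻ z : α → ℝ, Z.indicator
        (fun z : (α → ℝ) × (β → ℝ) => ENNReal.ofReal (gk δ z.2)) (z, w)
      ≤ ∫⁻ w : β → ℝ, N * ENNReal.ofReal (gk δ w) := by
        refine lintegral_mono fun w => ?_
        have hs : MeasurableSet {z : α → ℝ | (z, w) ∈ Z} :=
          (measurable_id.prodMk measurable_const) hZ
        calc ∫⁻ z : α → ℝ, Z.indicator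
              (fun z : (α → ℝ) × (β → ℝ) => ENNReal.ofReal (gk δ z.2)) (z, w)
            = ∫⁻ z : α → ℝ, {z : α → ℝ | (z, w) ∈ Z}.indicator
                (fun _ => ENNReal.ofReal (gk δ w)) z := by
              refine lintegral_congr fun z => ?_
              by_cases h : (z, w) ∈ Z
              · rw [indicator_of_mem h, indicator_of_mem (by exact h)]
              · rw [indicator_of_notMem h, indicator_of_notMem (by exact h)]
          _ ≤ N * ENNReal.ofReal (gk δ w) := by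
              rw [lintegral_indicator_const hs, mul_comm]
              exact mul_le_mul' (P2 w) le_rfl
    _ = N := by
        rw [lintegral_const_mul _ (gk_meas δ).ennreal_ofReal, gk_int δ hδ, mul_one]

include hφ hψ P1 in
theorem wm_push (δ : ℝ) (hδ : 0 < δ) (H : (α → ℝ) → ℝ≥0∞) (hH : Measurable H) :
    ∫⁻ x, H (φ x) ∂(wm μ ψ δ E) ≤ D * ∫⁻ z, H z := by
  rw [wm_lint μ ψ hψ δ E (fun x => H (φ x)) (hH.comp hφ)]
  have hm : Measurable fun z : (α → ℝ) × (β → ℝ) => ENNReal.ofReal (gk δ z.2) * H z.1 :=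
    ((gk_meas δ).comp measurable_snd).ennreal_ofReal.mul (hH.comp measurable_fst)
  refine (P1 _ hm).trans (mul_le_mul' le_rfl ?_)
  refine (setLIntegral_le_lintegral _ _).trans (le_of_eq ?_)
  rw [Measure.volume_eq_prod, lintegral_prod_symm _ hm.aemeasurable]
  calc ∫⁻ w : β → ℝ, ∫⁻ z : α → ℝ, ENNReal.ofReal (gk δ w) * H z
      = ∫⁻ w : β → ℝ, ENNReal.ofReal (gk δ w) * ∫⁻ z, H z := by
        refine lintegral_congr fun w => ?_
        exact lintegral_const_mul _ hH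
    _ = _ := by
        rw [lintegral_mul_const _ (gk_meas δ).ennreal_ofReal, gk_int δ hδ, one_mul]

include hφ hψ ha in
theorem pc_meas (δ : ℝ) : Measurable (pc μ φ ψ a δ E) := by
  unfold pc
  have h1 : StronglyMeasurable (Function.uncurry fun (y : α → ℝ) (x : X) =>
      a x * ch y (φ x) * ((gk δ (ψ x) : ℝ) : ℂ)) := by
    refine (Measurable.mul ((ha.comp measurable_snd).mul (ch_meas measurable_fst
        (hφ.comp measurable_snd))) ?_).stronglyMeasurable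
    exact Complex.measurable_ofReal.comp (((gk_meas δ).comp hψ).comp measurable_snd)
  exact (h1.integral_prod_right (ν := μ.restrict E)).measurable

include hφ hψ ha ha1 hZ P1 P2 in
/-- the `p`-th power norm of a piece -/
theorem pc_Lp (δ : ℝ) (hδ : 0 < δ) (p : ℝ) (hp : 2 < p) :
    ∫⁻ y : α → ℝ, ‖pc μ φ ψ a δ E y‖ₑ ^ p ≤ (D * N) ^ (p - 2) * (D * (D * N)) := by
  have hfin := wm_fin μ ψ hψ δ hδ E
  have hmass := wm_mass μ φ ψ hψ E Z hZ D N P1 P2 δ hδ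
  have h2 := energy (wm μ ψ δ E) φ hφ a ha ha1 D
    (fun H hH => wm_push μ φ hφ ψ hψ E Z D P1 δ hδ H hH)
  have hsup : ∀ y, ‖pc μ φ ψ a δ E y‖ₑ ≤ D * N := by
    intro y
    rw [pc_eq μ φ ψ hψ a δ E y]
    refine (enorm_integral_le_lintegral_enorm _).trans (le_trans ?_ hmass)
    rw [← lintegral_one]
    refine lintegral_mono fun x => ?_
    rw [enorm_mul, ch_enorm, mul_one, ← ofReal_norm]
    exact ENNReal.ofReal_le_one.2 (ha1 x)
  have hpt : ∀ y, ‖pc μ φ ψ a δ E y‖ₑ ^ p ≤ (D * N) ^ (p - 2) * ‖pc μ φ ψ a δ E y‖ₑ ^ 2 := by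
    intro y
    have e1 : ‖pc μ φ ψ a δ E y‖ₑ ^ p =
        ‖pc μ φ ψ a δ E y‖ₑ ^ (p - 2) * ‖pc μ φ ψ a δ E y‖ₑ ^ (2 : ℝ) := by
      rw [← ENNReal.rpow_add_of_nonneg _ _ (by linarith) (by norm_num)]
      congr 1
      ring
    rw [e1, ENNReal.rpow_ofNat]
    exact mul_le_mul' (ENNReal.rpow_le_rpow (hsup y) (by linarith)) le_rfl
  calc ∫⁻ y : α → ℝ, ‖pc μ φ ψ a δ E y‖ₑ ^ p
      ≤ ∫⁻ y : α → ℝ, (D * N) ^ (p - 2) * ‖pc μ φ ψ a δ E y‖ₑ ^ 2 := lintegral_mono hpt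
    _ = (D * N) ^ (p - 2) * ∫⁻ y : α → ℝ, ‖pc μ φ ψ a δ E y‖ₑ ^ 2 :=
        lintegral_const_mul _ ((pc_meas μ φ hφ ψ hψ a ha E δ).enorm.pow_const 2)
    _ ≤ _ := by
        refine mul_le_mul' le_rfl ?_
        simp_rw [pc_eq μ φ ψ hψ a δ E]
        exact h2.trans (mul_le_mul' le_rfl hmass)

end

section

variable {X : Type*} [MeasurableSpace X] (μ : Measure X) [IsFiniteMeasure μ]
  {α β : Type*} [Fintype α] [Fintype β]
  (φ : X → α → ℝ) (hφ : Measurable φ) (ψ : X → β → ℝ) (hψ : Measurable ψ)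
  (a : X → ℂ) (ha : Measurable a) (ha1 : ∀ x, ‖a x‖ ≤ 1)
  (E : ℕ → Set X) (hE : ∀ k, MeasurableSet (E k)) (hdis : Pairwise (Function.onFun Disjoint E))
  (hcov : μ (⋃ k, E k)ᶜ = 0)

/-- the full function -/
noncomputable def GG (y : α → ℝ) (w : β → ℝ) : ℂ := ∫ x, a x * ch y (φ x) * ch w (ψ x) ∂μ

include hφ hψ ha in
theorem GG_meas : Measurable fun p : (α → ℝ) × (β → ℝ) => GG μ φ ψ a p.1 p.2 := by
  unfold GG
  have h1 : StronglyMeasurable (Function.uncurry fun (p : (α → ℝ) × (β → ℝ)) (x : X) =>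
      a x * ch p.1 (φ x) * ch p.2 (ψ x)) := by
    refine (Measurable.mul ((ha.comp measurable_snd).mul (ch_meas
      (measurable_fst.comp measurable_fst) (hφ.comp measurable_snd))) ?_).stronglyMeasurable
    exact ch_meas (measurable_snd.comp measurable_fst) (hψ.comp measurable_snd)
  exact (h1.integral_prod_right (ν := μ)).measurable

include hφ hψ ha ha1 in
/-- the regularised marginal -/
theorem marg (δ : ℝ) (hδ : 0 < δ) (y : α → ℝ)
    (hpos : ∀ w, ∃ r : ℝ, 0 ≤ r ∧ GG μ φ ψ a y w = (r : ℂ)) :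
    ∫⁻ w : β → ℝ, ‖GG μ φ ψ a y w‖ₑ * ENNReal.ofReal (gw δ w) =
      ‖∫ x, a x * ch y (φ x) * ((gk δ (ψ x) : ℝ) : ℂ) ∂μ‖ₑ := by
  have hGm : Measurable fun w : β → ℝ => GG μ φ ψ a y w := by
    have h := (GG_meas μ φ hφ ψ hψ a ha).comp (measurable_prodMk_left (x := y))
    exact h
  have hGb : ∀ w, ‖GG μ φ ψ a y w‖ ≤ μ.real univ := by
    intro w
    have h := norm_integral_le_of_norm_le_const (μ := μ)
      (f := fun x => a x * ch y (φ x) * ch w (ψ x)) (C := 1)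
      (Filter.Eventually.of_forall fun x => by
        rw [norm_mul, norm_mul, ch_norm, ch_norm, mul_one, mul_one]; exact ha1 x)
    rwa [one_mul] at h
  choose r hr hr2 using hpos
  have hn : ∀ w, ‖GG μ φ ψ a y w‖ = r w := fun w => by
    rw [hr2 w, Complex.norm_real, Real.norm_eq_abs, abs_of_nonneg (hr w)]
  have hint : Integrable fun w => ‖GG μ φ ψ a y w‖ * gw δ w := by
    refine (gw_integrable δ hδ).bdd_mul (c := μ.real univ) hGm.norm.aestronglyMeasurable ?_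
    refine Filter.Eventually.of_forall fun w => ?_
    rw [norm_norm]
    exact hGb w
  have h1 : ∫⁻ w : β → ℝ, ‖GG μ φ ψ a y w‖ₑ * ENNReal.ofReal (gw δ w) =
      ENNReal.ofReal (∫ w, ‖GG μ φ ψ a y w‖ * gw δ w) := by
    rw [ofReal_integral_eq_lintegral_ofReal hint (Filter.Eventually.of_forall fun w =>
      mul_nonneg (norm_nonneg _) (gw_pos δ w).le)]
    refine lintegral_congr fun w => ?_
    rw [ENNReal.ofReal_mul (norm_nonneg _), ofReal_norm]
  have h2 : ((∫ w, ‖GG μ φ ψ a y w‖ * gw δ w : ℝ) : ℂ) =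
      ∫ x, a x * ch y (φ x) * ((gk δ (ψ x) : ℝ) : ℂ) ∂μ := by
    rw [← integral_complex_ofReal]
    have h3 : ∀ w, ((‖GG μ φ ψ a y w‖ * gw δ w : ℝ) : ℂ) =
        ∫ x, a x * ch y (φ x) * ch w (ψ x) * ((gw δ w : ℝ) : ℂ) ∂μ := by
      intro w
      rw [integral_mul_const]
      have h4 : (∫ x, a x * ch y (φ x) * ch w (ψ x) ∂μ) = ((r w : ℝ) : ℂ) := hr2 w
      rw [h4, hn w]
      push_cast
      rfl
    simp_rw [h3]
    rw [integral_integral_swap]
    · congr 1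
      ext x
      simp_rw [mul_assoc]
      rw [integral_const_mul, integral_const_mul, gauss_ft δ hδ]
    · have hm : Measurable fun q : (β → ℝ) × X => a q.2 * ch y (φ q.2) * ch q.1 (ψ q.2) *
          ((gw δ q.1 : ℝ) : ℂ) := by
        refine Measurable.mul (Measurable.mul (Measurable.mul ?_ ?_) ?_) ?_
        · exact ha.comp measurable_snd
        · exact ch_meas measurable_const (hφ.comp measurable_snd)
        · exact ch_meas measurable_fst (hψ.comp measurable_snd)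
        · exact Complex.measurable_ofReal.comp ((gw_meas δ).comp measurable_fst)
      have hdom : Integrable (fun q : (β → ℝ) × X => gw δ q.1 * (1 : ℝ))
          (volume.prod μ) := (gw_integrable δ hδ).mul_prod (integrable_const (1 : ℝ))
      refine hdom.mono' hm.aestronglyMeasurable (Filter.Eventually.of_forall fun q => ?_)
      show ‖a q.2 * ch y (φ q.2) * ch q.1 (ψ q.2) * ((gw δ q.1 : ℝ) : ℂ)‖ ≤ gw δ q.1 * 1
      rw [norm_mul, norm_mul, norm_mul, ch_norm, ch_norm, Complex.norm_real, Real.norm_eq_abs,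
        abs_of_pos (gw_pos δ q.1), mul_one, mul_one, mul_one]
      calc ‖a q.2‖ * gw δ q.1 ≤ 1 * gw δ q.1 :=
            mul_le_mul_of_nonneg_right (ha1 _) (gw_pos δ q.1).le
        _ = _ := one_mul _
  have h0 : 0 ≤ ∫ w, ‖GG μ φ ψ a y w‖ * gw δ w := integral_nonneg fun w =>
    mul_nonneg (norm_nonneg _) (gw_pos δ w).le
  rw [h1, ← h2, ← ofReal_norm, Complex.norm_real, Real.norm_eq_abs, abs_of_nonneg h0]

include hφ hψ ha ha1 hE hdis hcov in
theorem split_sum (δ : ℝ) (hδ : 0 < δ) (y : α → ℝ) :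
    ‖∫ x, a x * ch y (φ x) * ((gk δ (ψ x) : ℝ) : ℂ) ∂μ‖ₑ ≤
      ∑' k, ‖pc μ φ ψ a δ (E k) y‖ₑ := by
  have hm : Measurable fun x => a x * ch y (φ x) * ((gk δ (ψ x) : ℝ) : ℂ) :=
    (ha.mul (ch_meas measurable_const hφ)).mul
      (Complex.measurable_ofReal.comp ((gk_meas δ).comp hψ))
  have hi : Integrable (fun x => a x * ch y (φ x) * ((gk δ (ψ x) : ℝ) : ℂ)) μ := by
    refine Integrable.of_bound hm.aestronglyMeasurable (∏ _i : β, (Real.sqrt δ)⁻¹)
      (Filter.Eventually.of_forall fun x => ?_)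
    rw [norm_mul, norm_mul, ch_norm, mul_one, Complex.norm_real, Real.norm_eq_abs,
      abs_of_nonneg (gk_nonneg δ _)]
    calc ‖a x‖ * gk δ (ψ x) ≤ 1 * gk δ (ψ x) :=
          mul_le_mul_of_nonneg_right (ha1 x) (gk_nonneg δ _)
      _ ≤ _ := by rw [one_mul]; exact gk_le δ hδ _
  have hU : MeasurableSet (⋃ k, E k) := MeasurableSet.iUnion hE
  have h1 : ∫ x, a x * ch y (φ x) * ((gk δ (ψ x) : ℝ) : ℂ) ∂μ =
      ∫ x in ⋃ k, E k, a x * ch y (φ x) * ((gk δ (ψ x) : ℝ) : ℂ) ∂μ := by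
    rw [Measure.restrict_eq_self_of_ae_mem]
    exact measure_eq_zero_iff_ae_notMem.1 hcov |>.mono fun x hx => by simpa using hx
  have h2 := hasSum_integral_iUnion hE hdis hi.integrableOn
  rw [h1, ← h2.tsum_eq]
  exact enorm_tsum_le_tsum_enorm

end

theorem geo_ne (s : ℝ) (hs : 0 < s) : ∑' k : ℕ, (2 : ℝ≥0∞) ^ (-(s * (k : ℝ))) ≠ ∞ := by
  have h1 : ∀ k : ℕ, (2 : ℝ≥0∞) ^ (-(s * (k : ℝ))) = ((2 : ℝ≥0∞) ^ (-s)) ^ k := by
    intro k
    rw [← ENNReal.rpow_natCast, ← ENNReal.rpow_mul]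
    congr 1
    ring
  simp_rw [h1]
  rw [ENNReal.tsum_geometric]
  have h2 : (2 : ℝ≥0∞) ^ (-s) < 1 := by
    rw [ENNReal.rpow_neg, ENNReal.inv_lt_one]
    exact ENNReal.one_lt_rpow (by norm_num) hs
  rw [Ne, ENNReal.inv_eq_top, tsub_eq_zero_iff_le, not_le]
  exact h2

theorem iSup_rpow' (p : ℝ) (hp : 0 < p) (m : ℕ → ℝ≥0∞) : (⨆ j, m j) ^ p = ⨆ j, m j ^ p := by
  exact (ENNReal.orderIsoRpow p hp).map_iSup m

/-- **The abstract vertex estimate.** -/
theorem vertex (p : ℝ) (hp : 2 < p) : ∃ C : ℝ≥0, ∀ {X : Type} [MeasurableSpace X]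
    (μ : Measure X) [IsFiniteMeasure μ] {α β : Type} [Fintype α] [Fintype β]
    (φ : X → α → ℝ) (_ : Measurable φ) (ψ : X → β → ℝ) (_ : Measurable ψ)
    (a : X → ℂ) (_ : Measurable a) (_ : ∀ x, ‖a x‖ ≤ 1)
    (E : ℕ → Set X) (_ : ∀ k, MeasurableSet (E k)) (_ : Pairwise (Function.onFun Disjoint E))
    (_ : μ (⋃ k, E k)ᶜ = 0) (Z : ℕ → Set ((α → ℝ) × (β → ℝ))) (_ : ∀ k, MeasurableSet (Z k))
    (D N : ℝ≥0∞)
    (_ : ∀ k, ∀ H : (α → ℝ) × (β → ℝ) → ℝ≥0∞, Measurable H →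
      ∫⁻ x in E k, H (φ x, ψ x) ∂μ ≤ D * 2 ^ (k : ℝ) * ∫⁻ z in Z k, H z)
    (_ : ∀ k w, volume {z | (z, w) ∈ Z k} ≤ N * 2 ^ (-(2 * (k : ℝ))))
    (_ : ∀ y w, ∃ r : ℝ, 0 ≤ r ∧ GG μ φ ψ a y w = (r : ℂ)),
    ∫⁻ y : α → ℝ, (∫⁻ w : β → ℝ, ‖GG μ φ ψ a y w‖ₑ) ^ p ≤
      C * ((D * N) ^ (p - 2) * (D * (D * N))) := by
  obtain ⟨C₁, hC₁⟩ := tsum_pow_le p ((p - 2) / 2) (by linarith) (by linarith)
  have hgeo := geo_ne ((p - 2) / 2) (by linarith)
  refine ⟨C₁ * (∑' k : ℕ, (2 : ℝ≥0∞) ^ (-((p - 2) / 2 * (k : ℝ)))).toNNReal, ?_⟩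
  intro X _ μ _ α β _ _ φ hφ ψ hψ a ha ha1 E hE hdis hcov Z hZ D N P1 P2 hpos
  have hp0 : 0 < p := by linarith
  rw [ENNReal.coe_mul, ENNReal.coe_toNNReal hgeo]
  have hGm := GG_meas μ φ hφ ψ hψ a ha
  -- monotone convergence
  have h1 : ∀ y, (∫⁻ w : β → ℝ, ‖GG μ φ ψ a y w‖ₑ) ^ p = ⨆ j : ℕ,
      (∫⁻ w : β → ℝ, ‖GG μ φ ψ a y w‖ₑ * ENNReal.ofReal (gw (1 / ((j : ℝ) + 1)) w)) ^ p := by
    intro y
    rw [← iSup_rpow' p hp0]
    congr 1
    rw [← lintegral_iSup]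
    · refine lintegral_congr fun w => ?_
      rw [gw_iSup]
    · intro j
      have h := hGm.comp (measurable_prodMk_left (x := y))
      exact h.enorm.mul (gw_meas _).ennreal_ofReal
    · intro i j hij w
      exact mul_le_mul' le_rfl (gw_mono w hij)
  rw [lintegral_congr h1, lintegral_iSup]
  · refine iSup_le fun j => ?_
    set δ : ℝ := 1 / ((j : ℝ) + 1) with hδ'
    have hδ : 0 < δ := by positivity
    have h2 : ∀ y, (∫⁻ w : β → ℝ, ‖GG μ φ ψ a y w‖ₑ * ENNReal.ofReal (gw δ w)) ^ p ≤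
        C₁ * ∑' k : ℕ, (2 : ℝ≥0∞) ^ ((p - 2) / 2 * (k : ℝ)) * ‖pc μ φ ψ a δ (E k) y‖ₑ ^ p := by
      intro y
      rw [marg μ φ hφ ψ hψ a ha ha1 δ hδ y (hpos y)]
      exact (ENNReal.rpow_le_rpow (split_sum μ φ hφ ψ hψ a ha ha1 E hE hdis hcov δ hδ y)
        hp0.le).trans (hC₁ _)
    have hpm : ∀ k : ℕ, Measurable fun y => (2 : ℝ≥0∞) ^ ((p - 2) / 2 * (k : ℝ)) *
        ‖pc μ φ ψ a δ (E k) y‖ₑ ^ p := fun k =>
      ((pc_meas μ φ hφ ψ hψ a ha (E k) δ).enorm.pow_const p).const_mul _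
    calc ∫⁻ y : α → ℝ, (∫⁻ w : β → ℝ, ‖GG μ φ ψ a y w‖ₑ * ENNReal.ofReal (gw δ w)) ^ p
        ≤ ∫⁻ y : α → ℝ, C₁ * ∑' k : ℕ, (2 : ℝ≥0∞) ^ ((p - 2) / 2 * (k : ℝ)) *
            ‖pc μ φ ψ a δ (E k) y‖ₑ ^ p := lintegral_mono h2
      _ = C₁ * ∑' k : ℕ, (2 : ℝ≥0∞) ^ ((p - 2) / 2 * (k : ℝ)) *
            ∫⁻ y : α → ℝ, ‖pc μ φ ψ a δ (E k) y‖ₑ ^ p := by
          rw [lintegral_const_mul _ (Measurable.tsum hpm),
            lintegral_tsum fun k => (hpm k).aemeasurable]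
          congr 2
          ext k
          exact lintegral_const_mul _ ((pc_meas μ φ hφ ψ hψ a ha (E k) δ).enorm.pow_const p)
      _ ≤ C₁ * ∑' k : ℕ, (2 : ℝ≥0∞) ^ (-((p - 2) / 2 * (k : ℝ))) *
            ((D * N) ^ (p - 2) * (D * (D * N))) := by
          refine mul_le_mul' le_rfl (ENNReal.tsum_le_tsum fun k => ?_)
          have h3 := pc_Lp μ φ hφ ψ hψ a ha ha1 (E k) (Z k) (hZ k) (D * 2 ^ (k : ℝ))
            (N * 2 ^ (-(2 * (k : ℝ)))) (P1 k) (P2 k) δ hδ p hp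
          have e1 : D * 2 ^ (k : ℝ) * (N * 2 ^ (-(2 * (k : ℝ)))) =
              D * N * (2 : ℝ≥0∞) ^ (-(k : ℝ)) := by
            have : (2 : ℝ≥0∞) ^ (k : ℝ) * 2 ^ (-(2 * (k : ℝ))) = 2 ^ (-(k : ℝ)) := by
              rw [← ENNReal.rpow_add _ _ (by norm_num) (by norm_num)]
              congr 1
              ring
            rw [← this]
            ring
          have e2 : D * 2 ^ (k : ℝ) * (D * N * (2 : ℝ≥0∞) ^ (-(k : ℝ))) = D * (D * N) := by
            have : (2 : ℝ≥0∞) ^ (k : ℝ) * 2 ^ (-(k : ℝ)) = 1 := by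
              rw [← ENNReal.rpow_add _ _ (by norm_num) (by norm_num)]
              simp
            calc D * 2 ^ (k : ℝ) * (D * N * (2 : ℝ≥0∞) ^ (-(k : ℝ))) =
                  D * (D * N) * ((2 : ℝ≥0∞) ^ (k : ℝ) * 2 ^ (-(k : ℝ))) := by ring
              _ = _ := by rw [this, mul_one]
          rw [e1, e2, ENNReal.mul_rpow_of_nonneg _ _ (by linarith : 0 ≤ p - 2),
            ← ENNReal.rpow_mul] at h3
          refine (mul_le_mul' le_rfl h3).trans (le_of_eq ?_)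
          have e3 : (2 : ℝ≥0∞) ^ ((p - 2) / 2 * (k : ℝ)) * 2 ^ (-(k : ℝ) * (p - 2)) =
              2 ^ (-((p - 2) / 2 * (k : ℝ))) := by
            rw [← ENNReal.rpow_add _ _ (by norm_num) (by norm_num)]
            congr 1
            ring
          rw [← e3]
          ring
      _ = _ := by
          rw [ENNReal.tsum_mul_right]
          ring
  · intro j
    have h0 : Measurable fun q : (α → ℝ) × (β → ℝ) => ‖GG μ φ ψ a q.1 q.2‖ₑ *
        ENNReal.ofReal (gw (1 / ((j : ℝ) + 1)) q.2) :=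
      hGm.enorm.mul ((gw_meas _).comp measurable_snd).ennreal_ofReal
    exact h0.lintegral_prod_right'.pow_const p
  · intro i j hij y
    refine ENNReal.rpow_le_rpow (lintegral_mono fun w => ?_) hp0.le
    exact mul_le_mul' le_rfl (gw_mono w hij)

end Pool.Agent.T9h8.PP
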