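import Mathlib
import Pool.Agent.T9h8.PP.Lin
import Pool.Agent.T9h8.PP.Vertex
set_option autoImplicit false
set_option linter.unusedSectionVars false

/-!
# The marginals of the extension operator on two-dimensional planes
-/

namespace Pool.Agent.T9h8.PP

open MeasureTheory Set
open scoped ENNReal NNReal

variable {n : ℕ}

/-- the extension operator -/
noncomputable def Ex (f : (Fin n → ℝ) → ℂ) (x : Fin (n + 1) → ℝ) : ℂ :=
  ∫ ξ in Cu n, f ξ * ch x (Ph ξ)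

instance Cu_fin : IsFiniteMeasure ((volume : Measure (Fin n → ℝ)).restrict (Cu n)) :=
  ⟨by
    rw [Measure.restrict_apply_univ, Cu_vol]
    exact ENNReal.pow_lt_top (by norm_num)⟩

instance CC_fin : IsFiniteMeasure
    ((volume : Measure ((Fin n → ℝ) × (Fin n → ℝ))).restrict (Cu n ×ˢ Cu n)) := by
  rw [Measure.volume_eq_prod, ← Measure.prod_restrict]
  infer_instance

theorem Ex_cont (f : (Fin n → ℝ) → ℂ) (hf : Measurable f) (hf1 : ∀ ξ, ‖f ξ‖ ≤ 1) :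
    Continuous (Ex f) := by
  refine continuous_of_dominated (bound := fun _ => 1) ?_ ?_ (integrable_const 1) ?_
  · intro x
    exact (hf.mul (ch_meas measurable_const Ph_meas)).aestronglyMeasurable
  · intro x
    refine Filter.Eventually.of_forall fun ξ => ?_
    rw [norm_mul, ch_norm, mul_one]
    exact hf1 ξ
  · refine Filter.Eventually.of_forall fun ξ => ?_
    exact continuous_const.mul (ch_cont.comp (continuous_id.prodMk continuous_const))

theorem Ex_bd (f : (Fin n → ℝ) → ℂ) (hf1 : ∀ ξ, ‖f ξ‖ ≤ 1) (x : Fin (n + 1) → ℝ) :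
    ‖Ex f x‖ₑ ≤ 2 ^ n := by
  unfold Ex
  refine (enorm_integral_le_lintegral_enorm _).trans ?_
  calc ∫⁻ ξ in Cu n, ‖f ξ * ch x (Ph ξ)‖ₑ ≤ ∫⁻ _ξ in Cu n, 1 := by
        refine lintegral_mono fun ξ => ?_
        rw [enorm_mul, ch_enorm, mul_one, ← ofReal_norm]
        exact ENNReal.ofReal_le_one.2 (hf1 ξ)
    _ = 2 ^ n := by
        rw [lintegral_const, Measure.restrict_apply_univ, Cu_vol, one_mul]

/-- the square as a double integral -/
theorem Ex_sq (f : (Fin n → ℝ) → ℂ) (x : Fin (n + 1) → ℝ) :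
    ∫ p in Cu n ×ˢ Cu n, (f p.1 * star (f p.2)) * ch x (Ph p.1 - Ph p.2) =
      ((‖Ex f x‖ ^ 2 : ℝ) : ℂ) := by
  have h1 : ((‖Ex f x‖ ^ 2 : ℝ) : ℂ) = Ex f x * star (Ex f x) := by
    rw [Complex.star_def, Complex.mul_conj, Complex.normSq_eq_norm_sq]
  have h2 : star (Ex f x) = ∫ ξ in Cu n, star (f ξ) * ch x (-Ph ξ) := by
    unfold Ex
    rw [Complex.star_def, ← integral_conj]
    congr 1
    ext ξ
    rw [map_mul, ← Complex.star_def, ch_star]
  rw [h1, h2, Measure.volume_eq_prod, ← Measure.prod_restrict]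
  unfold Ex
  rw [← integral_prod_mul]
  congr 1
  ext p
  rw [sub_eq_add_neg, ch_add]
  ring

theorem ch_mat {d : ℕ} (A : Matrix (Fin d) (Fin d) ℝ) (y u : Fin d → ℝ) :
    ch (A⁻¹.mulVec y) u = ch y ((A.transpose)⁻¹.mulVec u) := by
  unfold ch
  congr 3
  have h1 : ∑ i, (A⁻¹.mulVec y) i * u i = (A⁻¹.mulVec y) ⬝ᵥ u := rfl
  have h2 : ∑ i, y i * ((A.transpose)⁻¹.mulVec u) i = y ⬝ᵥ ((A.transpose)⁻¹.mulVec u) := rfl
  rw [h1, h2, ← Matrix.transpose_nonsing_inv, Matrix.mulVec_transpose,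
    dotProduct_comm (A⁻¹.mulVec y), Matrix.dotProduct_mulVec, dotProduct_comm y]

theorem ch_glue {d : ℕ} {β : Type} [Fintype β] (σ : Fin 2 ⊕ β ≃ Fin d)
    (z : Fin 2 → ℝ) (w : β → ℝ) (u : Fin d → ℝ) :
    ch (glue σ (z, w)) u = ch z (spl σ u).1 * ch w (spl σ u).2 := by
  unfold ch
  rw [← Complex.exp_add, ← mul_add, ← Complex.ofReal_add]
  congr 3
  rw [← σ.sum_comp, Fintype.sum_sum_type]
  simp only [glue_inl, glue_inr, spl]

section

variable {β : Type} [Fintype β] (σ : Fin 2 ⊕ β ≃ Fin (n + 1))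
  (A : Matrix (Fin (n + 1)) (Fin (n + 1)) ℝ) (hA : A.det ≠ 0)

/-- the difference map in the new coordinates -/
noncomputable def dm (p : (Fin n → ℝ) × (Fin n → ℝ)) : (Fin 2 → ℝ) × (β → ℝ) :=
  spl σ ((A.transpose)⁻¹.mulVec (Ph p.1 - Ph p.2))

theorem mulVec_meas {d : ℕ} (M : Matrix (Fin d) (Fin d) ℝ) :
    Measurable fun u : Fin d → ℝ => M.mulVec u := by
  unfold Matrix.mulVec dotProduct
  fun_prop

theorem dm_meas : Measurable (dm σ A) :=
  (spl_meas σ).comp ((mulVec_meas _).comp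
    ((Ph_meas.comp measurable_fst).sub (Ph_meas.comp measurable_snd)))

theorem GG_para (f : (Fin n → ℝ) → ℂ) (z : Fin 2 → ℝ) (w : β → ℝ) :
    GG ((volume : Measure ((Fin n → ℝ) × (Fin n → ℝ))).restrict (Cu n ×ˢ Cu n))
      (fun p => (dm σ A p).1) (fun p => (dm σ A p).2) (fun p => f p.1 * star (f p.2)) z w =
      ((‖Ex f (A⁻¹.mulVec (glue σ (z, w)))‖ ^ 2 : ℝ) : ℂ) := by
  rw [← Ex_sq]
  unfold GG dm
  refine integral_congr_ae (Filter.Eventually.of_forall fun p => ?_)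
  simp only
  rw [ch_mat, ch_glue, mul_assoc]

/-- the image of the box -/
def Zk (k : ℕ) : Set ((Fin 2 → ℝ) × (β → ℝ)) := {q | A.transpose.mulVec (glue σ q) ∈ Bk n k}

theorem Zk_meas (k : ℕ) : MeasurableSet (Zk σ A k) :=
  ((mulVec_meas _).comp (glue_meas σ)) (Bk_meas k)

include hA in
theorem lint_mat (F : (Fin (n + 1) → ℝ) → ℝ≥0∞) (hF : Measurable F) :
    ∫⁻ ζ, F ((A.transpose)⁻¹.mulVec ζ) = ENNReal.ofReal |A.det| * ∫⁻ x, F x := by
  have hdet : ((A.transpose)⁻¹).det ≠ 0 := by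
    rw [Matrix.det_nonsing_inv, Matrix.det_transpose, Ring.inverse_eq_inv']
    exact inv_ne_zero hA
  have h1 := Real.map_matrix_volume_pi_eq_smul_volume_pi hdet
  have h2 := lintegral_map (μ := (volume : Measure (Fin (n + 1) → ℝ))) hF
    (mulVec_meas ((A.transpose)⁻¹))
  have e : (⇑(Matrix.toLin' ((A.transpose)⁻¹))) = fun ζ => (A.transpose)⁻¹.mulVec ζ := by
    ext ζ
    rw [Matrix.toLin'_apply]
  rw [e] at h1
  rw [← h2, h1, lintegral_smul_measure, Matrix.det_nonsing_inv, Matrix.det_transpose,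
    Ring.inverse_eq_inv', inv_inv]
  rfl

include hA in
theorem para_P1 (hn : 1 ≤ n) (k : ℕ) (H : (Fin 2 → ℝ) × (β → ℝ) → ℝ≥0∞) (hH : Measurable H) :
    ∫⁻ p in Ek n k, H ((dm σ A p).1, (dm σ A p).2)
      ∂((volume : Measure ((Fin n → ℝ) × (Fin n → ℝ))).restrict (Cu n ×ˢ Cu n)) ≤
      (2 ^ n * ENNReal.ofReal |A.det|) * 2 ^ (k : ℝ) * ∫⁻ z in Zk σ A k, H z := by
  have hHm : Measurable fun ζ : Fin (n + 1) → ℝ => H (spl σ ((A.transpose)⁻¹.mulVec ζ)) :=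
    hH.comp ((spl_meas σ).comp (mulVec_meas _))
  have h1 := push hn k _ hHm
  refine h1.trans ?_
  have hΘ : Measurable ((Bk n k).indicator fun ζ => H (spl σ ((A.transpose)⁻¹.mulVec ζ))) :=
    hHm.indicator (Bk_meas k)
  set Θ : (Fin (n + 1) → ℝ) → ℝ≥0∞ := {x | A.transpose.mulVec x ∈ Bk n k}.indicator
    fun x => H (spl σ x) with hΘ'
  have hS : MeasurableSet {x : Fin (n + 1) → ℝ | A.transpose.mulVec x ∈ Bk n k} :=
    (mulVec_meas _) (Bk_meas k)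
  have hΘm : Measurable Θ := (hH.comp (spl_meas σ)).indicator hS
  have h2 : ∫⁻ ζ in Bk n k, H (spl σ ((A.transpose)⁻¹.mulVec ζ)) =
      ∫⁻ ζ, Θ ((A.transpose)⁻¹.mulVec ζ) := by
    rw [← lintegral_indicator (Bk_meas k)]
    refine lintegral_congr fun ζ => ?_
    have hu : IsUnit (A.transpose).det := by
      rw [Matrix.det_transpose]
      exact isUnit_iff_ne_zero.2 hA
    have e1 : A.transpose.mulVec ((A.transpose)⁻¹.mulVec ζ) = ζ := by
      rw [Matrix.mulVec_mulVec, Matrix.mul_nonsing_inv _ hu, Matrix.one_mulVec]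
    by_cases h : ζ ∈ Bk n k
    · have h' : (A.transpose)⁻¹.mulVec ζ ∈ {x : Fin (n + 1) → ℝ | A.transpose.mulVec x ∈ Bk n k} := by
        show A.transpose.mulVec ((A.transpose)⁻¹.mulVec ζ) ∈ Bk n k
        rwa [e1]
      rw [indicator_of_mem h, hΘ', indicator_of_mem h']
    · have h' : (A.transpose)⁻¹.mulVec ζ ∉ {x : Fin (n + 1) → ℝ | A.transpose.mulVec x ∈ Bk n k} := by
        intro h2
        have h3 : A.transpose.mulVec ((A.transpose)⁻¹.mulVec ζ) ∈ Bk n k := h2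
        rw [e1] at h3
        exact h h3
      rw [indicator_of_notMem h, hΘ', indicator_of_notMem h']
  rw [h2, lint_mat A hA Θ hΘm]
  have h3 : ∫⁻ x, Θ x = ∫⁻ z in Zk σ A k, H z := by
    rw [← (glue_mp σ).lintegral_comp hΘm, ← lintegral_indicator (Zk_meas σ A k)]
    refine lintegral_congr fun q => ?_
    by_cases h : q ∈ Zk σ A k
    · rw [indicator_of_mem h, hΘ', indicator_of_mem (by exact h), spl_glue]
    · rw [indicator_of_notMem h, hΘ', indicator_of_notMem (by exact h)]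
  rw [h3, ENNReal.rpow_natCast]
  refine le_of_eq ?_
  ring

end

/-- **The marginals of the extension operator on planes.** -/
theorem pair (n : ℕ) (hn : 1 ≤ n) (p : ℝ) (hp : 2 < p) : ∃ C : ℝ≥0,
    ∀ (A : Matrix (Fin (n + 1)) (Fin (n + 1)) ℝ) (e : Fin (n + 1) → Fin (n + 1) → ℝ)
      (r : Fin (n + 1) → ℝ), A.det ≠ 0 → (∀ i, 0 < r i) → (∀ l m, |e l m| ≤ 1) →
      (∀ i, |∑ m, A i m * e i m| = r i) → (∀ i j, i < j → ∑ m, A i m * e j m = 0) →
      ∀ (i j : Fin (n + 1)), i < j → ∀ {β : Type} [Fintype β] (σ : Fin 2 ⊕ β ≃ Fin (n + 1)),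
      σ (Sum.inl 0) = i → σ (Sum.inl 1) = j →
      ∀ f : (Fin n → ℝ) → ℂ, Measurable f → (∀ ξ, ‖f ξ‖ ≤ 1) →
        ∫⁻ z : Fin 2 → ℝ, (∫⁻ w : β → ℝ, ‖Ex f (A⁻¹.mulVec (glue σ (z, w)))‖ₑ ^ 2) ^ p ≤
          C * (ENNReal.ofReal |A.det| ^ p * ENNReal.ofReal ((r i * r j)⁻¹) ^ (p - 1)) := by
  obtain ⟨C, hC⟩ := vertex p hp
  set c1 : ℝ≥0∞ := 2 ^ n with hc1
  set c2 : ℝ≥0∞ := ENNReal.ofReal ((2 * ((n + 1 : ℕ) * (4 * n))) ^ 2) with hc2
  have hc1t : c1 ≠ ∞ := ENNReal.pow_ne_top (by norm_num)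
  have hc2t : c2 ≠ ∞ := ENNReal.ofReal_ne_top
  refine ⟨C * (c1 ^ p * c2 ^ (p - 1)).toNNReal, ?_⟩
  intro A e r hA hr he hd ht i j hij β _ σ hi hj f hf hf1
  have hcc : c1 ^ p * c2 ^ (p - 1) ≠ ∞ := ENNReal.mul_ne_top
    (ENNReal.rpow_ne_top_of_nonneg (by linarith) hc1t)
    (ENNReal.rpow_ne_top_of_nonneg (by linarith) hc2t)
  rw [ENNReal.coe_mul, ENNReal.coe_toNNReal hcc]
  set a0 : ℝ≥0∞ := ENNReal.ofReal |A.det| with ha0
  set b0 : ℝ≥0∞ := ENNReal.ofReal ((r i * r j)⁻¹) with hb0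
  have hφ : Measurable fun p => (dm σ A p).1 := measurable_fst.comp (dm_meas σ A)
  have hψ : Measurable fun p => (dm σ A p).2 := measurable_snd.comp (dm_meas σ A)
  have ha : Measurable fun p : (Fin n → ℝ) × (Fin n → ℝ) => f p.1 * star (f p.2) :=
    (hf.comp measurable_fst).mul ((continuous_star.measurable.comp hf).comp measurable_snd)
  have ha1 : ∀ p : (Fin n → ℝ) × (Fin n → ℝ), ‖f p.1 * star (f p.2)‖ ≤ 1 := fun p => by
    rw [norm_mul, norm_star]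
    exact mul_le_one₀ (hf1 _) (norm_nonneg _) (hf1 _)
  have hP2 : ∀ (k : ℕ) (w : β → ℝ), volume {z : Fin 2 → ℝ | (z, w) ∈ Zk σ A k} ≤
      (c2 * b0) * 2 ^ (-(2 * (k : ℝ))) := by
    intro k w
    have h1 := section_area σ i j hij hi hj A e r hr he hd ht (4 * n * (2 ^ k : ℝ)⁻¹) w
    refine h1.trans (le_of_eq ?_)
    have e1 : (2 * (((n + 1 : ℕ) : ℝ) * (4 * n * (2 ^ k : ℝ)⁻¹))) ^ 2 =
        (2 * ((n + 1 : ℕ) * (4 * n))) ^ 2 * ((2 ^ k : ℝ)⁻¹) ^ 2 := by ring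
    have e2 : ENNReal.ofReal (((2 ^ k : ℝ)⁻¹) ^ 2) = 2 ^ (-(2 * (k : ℝ))) := by
      rw [ENNReal.rpow_neg, ← inv_pow, ENNReal.ofReal_pow (by positivity),
        ENNReal.ofReal_pow (by positivity), ENNReal.ofReal_inv_of_pos (by norm_num),
        ENNReal.ofReal_ofNat, ← pow_mul, ← ENNReal.inv_pow]
      congr 1
      rw [← ENNReal.rpow_natCast]
      congr 1
      push_cast
      ring
    rw [e1, ENNReal.ofReal_mul (by positivity), e2, hc2, hb0]
    ring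
  have h := hC ((volume : Measure ((Fin n → ℝ) × (Fin n → ℝ))).restrict (Cu n ×ˢ Cu n))
    (fun p => (dm σ A p).1) hφ (fun p => (dm σ A p).2) hψ (fun p => f p.1 * star (f p.2)) ha ha1
    (Ek n) Ek_meas Ek_disj (Ek_cover hn) (Zk σ A) (Zk_meas σ A) (c1 * a0) (c2 * b0)
    (fun k H hH => para_P1 σ A hA hn k H hH) hP2 (fun y w =>
      ⟨_, by positivity, GG_para σ A f y w⟩)
  have e3 : ∀ z w, ‖GG ((volume : Measure ((Fin n → ℝ) × (Fin n → ℝ))).restrict (Cu n ×ˢ Cu n))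
      (fun p => (dm σ A p).1) (fun p => (dm σ A p).2) (fun p => f p.1 * star (f p.2)) z w‖ₑ =
      ‖Ex f (A⁻¹.mulVec (glue σ (z, w)))‖ₑ ^ 2 := by
    intro z w
    rw [GG_para, ← ofReal_norm, Complex.norm_real, Real.norm_eq_abs, abs_of_nonneg (by positivity),
      ENNReal.ofReal_pow (norm_nonneg _), ofReal_norm]
  simp_rw [e3] at h
  refine h.trans (le_of_eq ?_)
  have hp1 : (0 : ℝ) ≤ p - 2 := by linarith
  have e4 : ∀ x : ℝ≥0∞, x ^ (p - 2) * x * x = x ^ p := by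
    intro x
    have : p = (p - 2) + 1 + 1 := by ring
    nth_rewrite 2 [this]
    rw [ENNReal.rpow_add_of_nonneg _ _ (by linarith) zero_le_one,
      ENNReal.rpow_add_of_nonneg _ _ hp1 zero_le_one, ENNReal.rpow_one]
  have e5 : ∀ x : ℝ≥0∞, x ^ (p - 2) * x = x ^ (p - 1) := by
    intro x
    have : p - 1 = (p - 2) + 1 := by ring
    rw [this, ENNReal.rpow_add_of_nonneg _ _ hp1 zero_le_one, ENNReal.rpow_one]
  rw [← e4 c1, ← e4 a0, ← e5 c2, ← e5 b0, ENNReal.mul_rpow_of_nonneg _ _ hp1,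
    ENNReal.mul_rpow_of_nonneg _ _ hp1, ENNReal.mul_rpow_of_nonneg _ _ hp1]
  ring

end Pool.Agent.T9h8.PP
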