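import Mathlib
import Pool.Agent.T9h8.PP.Pair
import Pool.Agent.TH278.FN.GR
set_option autoImplicit false
set_option linter.unusedSectionVars false

/-!
# The combination with Finner's inequality
-/

namespace Pool.Agent.T9h8.PP

open MeasureTheory Set
open scoped ENNReal NNReal
open Pool.Agent.TH278.FN (mg PI SI wI fI prod_PI cov_PI fI_meas fI_dep mg_fI_off mg_univ)

/-- weights of the pairs of coordinates: nonnegative, of total weight one at each coordinate -/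
structure IsWeight {d : ℕ} (w : Fin d → Fin d → ℝ) : Prop where
  nonneg : ∀ i j, 0 ≤ w i j
  total : ∀ i, ∑ j ∈ Finset.Ioi i, w i j + ∑ j ∈ Finset.Iio i, w j i = 1

/-- the pairs `i < j` -/
def Pr (d : ℕ) : Finset (Σ _ : Fin d, Fin d) := Finset.univ.sigma fun i => Finset.Ioi i

theorem mem_Pr {d : ℕ} (p : Σ _ : Fin d, Fin d) : p ∈ Pr d ↔ p.1 < p.2 := by
  unfold Pr
  simp [Finset.mem_sigma]

theorem prod_Pr {d : ℕ} {M : Type*} [CommMonoid M] (F : (Σ _ : Fin d, Fin d) → M) :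
    ∏ p ∈ Pr d, F p = ∏ i, ∏ j ∈ Finset.Ioi i, F ⟨i, j⟩ := by
  unfold Pr
  rw [Finset.prod_sigma]

theorem sum_Pr {d : ℕ} (F : (Σ _ : Fin d, Fin d) → ℝ) :
    ∑ p ∈ Pr d, F p = ∑ i, ∑ j ∈ Finset.Ioi i, F ⟨i, j⟩ := by
  unfold Pr
  rw [Finset.sum_sigma]

theorem swap_sum {d : ℕ} (F : Fin d → Fin d → ℝ) :
    ∑ i, ∑ j ∈ Finset.Ioi i, F i j = ∑ j, ∑ i ∈ Finset.Iio j, F i j := by
  have h1 : ∀ i, ∑ j ∈ Finset.Ioi i, F i j = ∑ j, if i < j then F i j else 0 := fun i => by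
    rw [← Finset.sum_filter]
    congr 1
    ext j
    simp
  have h2 : ∀ j, ∑ i ∈ Finset.Iio j, F i j = ∑ i, if i < j then F i j else 0 := fun j => by
    rw [← Finset.sum_filter]
    congr 1
    ext i
    simp
  simp_rw [h1, h2]
  exact Finset.sum_comm

theorem sum_w {d : ℕ} (w : Fin d → Fin d → ℝ) (hw : IsWeight w) :
    2 * ∑ p ∈ Pr d, w p.1 p.2 = d := by
  have h1 : ∑ i : Fin d, (∑ j ∈ Finset.Ioi i, w i j + ∑ j ∈ Finset.Iio i, w j i) = d := by
    simp [hw.total]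
  rw [Finset.sum_add_distrib] at h1
  rw [sum_Pr, two_mul]
  nth_rewrite 2 [swap_sum (fun i j => w i j)]
  exact h1

theorem prod_rpow_sum {ι : Type*} (s : Finset ι) (θ : ι → ℝ) (hθ : ∀ p ∈ s, 0 ≤ θ p)
    (x : ℝ≥0∞) : ∏ p ∈ s, x ^ θ p = x ^ ∑ p ∈ s, θ p := by
  classical
  induction s using Finset.induction_on with
  | empty => simp
  | insert a s ha ih =>
    rw [Finset.prod_insert ha, Finset.sum_insert ha, ih fun p hp => hθ p (Finset.mem_insert_of_mem hp),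
      ENNReal.rpow_add_of_nonneg _ _ (hθ a (Finset.mem_insert_self a s))
        (Finset.sum_nonneg fun p hp => hθ p (Finset.mem_insert_of_mem hp))]

/-- Finner's inequality for pairs -/
theorem finner_pairs {d : ℕ} (w : Fin d → Fin d → ℝ) (hw : IsWeight w)
    (g : Fin d → Fin d → ℝ × ℝ → ℝ≥0∞) (hg : ∀ i j, Measurable (g i j)) :
    ∫⁻ y : Fin d → ℝ, ∏ p ∈ Pr d, g p.1 p.2 (y p.1, y p.2) ^ w p.1 p.2 ≤
      ∏ p ∈ Pr d, (∫⁻ z, g p.1 p.2 z) ^ w p.1 p.2 := by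
  set φ : Fin d → ℝ → ℝ≥0∞ := fun _ _ => 1 with hφ
  have hφm : ∀ i, Measurable (φ i) := fun i => measurable_const
  have hcov := cov_PI (fun _ : Fin d => (0 : ℝ)) w (fun i => by
    rw [zero_add]; exact hw.total i)
  have h := Pool.Agent.TH278.FN.finner (PI d) SI (wI (fun _ => 0) w) (fI φ g)
    (fun p _ => fI_meas φ g hφm hg p) (fun p _ => fI_dep φ g p) (fun p _ => by
      unfold wI
      split_ifs
      · exact le_rfl
      · exact hw.nonneg _ _) Finset.univ (fun i _ => hcov i) 0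
  have e1 : ∀ y : Fin d → ℝ, ∏ p ∈ PI d, fI φ g p y ^ wI (fun _ => 0) w p =
      ∏ p ∈ Pr d, g p.1 p.2 (y p.1, y p.2) ^ w p.1 p.2 := by
    intro y
    rw [prod_PI, prod_Pr]
    have : ∏ i : Fin d, fI φ g ⟨i, i⟩ y ^ wI (fun _ => 0) w ⟨i, i⟩ = 1 := by
      refine Finset.prod_eq_one fun i _ => ?_
      simp [wI]
    rw [this, one_mul]
    refine Finset.prod_congr rfl fun i _ => Finset.prod_congr rfl fun j hj => ?_
    have : i ≠ j := (Finset.mem_Ioi.1 hj).ne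
    simp [fI, wI, this]
  have e2 : ∏ p ∈ PI d, (mg (Finset.univ ∩ SI p) (fI φ g p) 0) ^ wI (fun _ => 0) w p =
      ∏ p ∈ Pr d, (∫⁻ z, g p.1 p.2 z) ^ w p.1 p.2 := by
    simp_rw [Finset.univ_inter]
    rw [prod_PI, prod_Pr]
    have : ∏ i : Fin d, (mg (SI (⟨i, i⟩ : Σ _ : Fin d, Fin d)) (fI φ g ⟨i, i⟩) 0) ^
        wI (fun _ => 0) w ⟨i, i⟩ = 1 := by
      refine Finset.prod_eq_one fun i _ => ?_
      simp [wI]
    rw [this, one_mul]
    refine Finset.prod_congr rfl fun i _ => Finset.prod_congr rfl fun j hj => ?_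
    have hij : i ≠ j := (Finset.mem_Ioi.1 hj).ne
    rw [mg_fI_off φ g i j hij hg]
    simp [wI, hij]
  rw [← e2]
  refine le_trans (le_of_eq ?_) h
  rw [← mg_univ _ 0]
  unfold mg
  congr 1
  funext y
  exact (e1 y).symm

/-- the product of the section areas -/
theorem prod_areas {d : ℕ} (w : Fin d → Fin d → ℝ) (hw : IsWeight w) (r : Fin d → ℝ)
    (hr : ∀ i, 0 < r i) :
    ∏ p ∈ Pr d, ENNReal.ofReal ((r p.1 * r p.2)⁻¹) ^ w p.1 p.2 =
      ENNReal.ofReal ((∏ i, r i)⁻¹) := by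
  have h1 : ∀ p : Σ _ : Fin d, Fin d, ENNReal.ofReal ((r p.1 * r p.2)⁻¹) ^ w p.1 p.2 =
      ENNReal.ofReal ((r p.1)⁻¹ ^ w p.1 p.2 * (r p.2)⁻¹ ^ w p.1 p.2) := by
    intro p
    have a1 := hr p.1
    have a2 := hr p.2
    rw [ENNReal.ofReal_rpow_of_pos (by positivity), mul_inv,
      Real.mul_rpow (by positivity) (by positivity)]
  simp_rw [h1]
  rw [← ENNReal.ofReal_prod_of_nonneg fun p _ => by
    have a1 := hr p.1
    have a2 := hr p.2
    positivity]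
  congr 1
  rw [Finset.prod_mul_distrib, prod_Pr, prod_Pr]
  have h2 : ∏ i : Fin d, ∏ j ∈ Finset.Ioi i, (r j)⁻¹ ^ w i j =
      ∏ j : Fin d, ∏ i ∈ Finset.Iio j, (r j)⁻¹ ^ w i j := by
    have b1 : ∀ i : Fin d, ∏ j ∈ Finset.Ioi i, (r j)⁻¹ ^ w i j =
        ∏ j, if i < j then (r j)⁻¹ ^ w i j else 1 := fun i => by
      rw [← Finset.prod_filter]
      congr 1
      ext j
      simp
    have b2 : ∀ j : Fin d, ∏ i ∈ Finset.Iio j, (r j)⁻¹ ^ w i j =
        ∏ i, if i < j then (r j)⁻¹ ^ w i j else 1 := fun j => by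
      rw [← Finset.prod_filter]
      congr 1
      ext i
      simp
    simp_rw [b1, b2]
    exact Finset.prod_comm
  simp only
  rw [h2, ← Finset.prod_mul_distrib, ← Finset.prod_inv_distrib]
  refine Finset.prod_congr rfl fun i _ => ?_
  have hri := inv_pos.2 (hr i)
  rw [← Real.rpow_sum_of_pos hri, ← Real.rpow_sum_of_pos hri, ← Real.rpow_add hri, hw.total i,
    Real.rpow_one]

end Pool.Agent.T9h8.PP
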