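import Mathlib
import Pool.Agent.T9h8.PP.Comb
set_option autoImplicit false
set_option linter.unusedSectionVars false

/-!
# The estimate tested on products of functions of pairs of coordinates
-/

namespace Pool.Agent.T9h8.PP

open MeasureTheory Set
open scoped ENNReal NNReal

variable {n : ℕ}

/-- the product of the test functions -/
noncomputable def Gp {d : ℕ} (w : Fin d → Fin d → ℝ) (g : Fin d → Fin d → ℝ × ℝ → ℝ≥0∞)
    (s : ℝ) (y : Fin d → ℝ) : ℝ≥0∞ :=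
  ∏ p ∈ Pr d, g p.1 p.2 (y p.1, y p.2) ^ (w p.1 p.2 * s)

/-- the product of the integrals -/
noncomputable def Ip {d : ℕ} (w : Fin d → Fin d → ℝ) (g : Fin d → Fin d → ℝ × ℝ → ℝ≥0∞)
    (s : ℝ) : ℝ≥0∞ :=
  ∏ p ∈ Pr d, (∫⁻ z, g p.1 p.2 z) ^ (w p.1 p.2 * s)

theorem Gp_meas {d : ℕ} (w : Fin d → Fin d → ℝ) (g : Fin d → Fin d → ℝ × ℝ → ℝ≥0∞)
    (hg : ∀ i j, Measurable (g i j)) (s : ℝ) : Measurable (Gp w g s) := by
  unfold Gp
  refine Finset.measurable_prod _ fun p _ => ?_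
  exact ((hg _ _).comp ((measurable_pi_apply _).prodMk (measurable_pi_apply _))).pow_const _

theorem Gp_pow {d : ℕ} (w : Fin d → Fin d → ℝ) (g : Fin d → Fin d → ℝ × ℝ → ℝ≥0∞)
    (s t : ℝ) (ht : 0 ≤ t) (y : Fin d → ℝ) : Gp w g s y ^ t = Gp w g (s * t) y := by
  unfold Gp
  rw [← ENNReal.prod_rpow_of_nonneg ht]
  refine Finset.prod_congr rfl fun p _ => ?_
  rw [← ENNReal.rpow_mul, mul_assoc]

theorem Ip_pow {d : ℕ} (w : Fin d → Fin d → ℝ) (g : Fin d → Fin d → ℝ × ℝ → ℝ≥0∞)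
    (s t : ℝ) (ht : 0 ≤ t) : Ip w g s ^ t = Ip w g (s * t) := by
  unfold Ip
  rw [← ENNReal.prod_rpow_of_nonneg ht]
  refine Finset.prod_congr rfl fun p _ => ?_
  rw [← ENNReal.rpow_mul, mul_assoc]

theorem Gp_mul {d : ℕ} (w : Fin d → Fin d → ℝ) (hw : IsWeight w)
    (g : Fin d → Fin d → ℝ × ℝ → ℝ≥0∞) (s t : ℝ) (hs : 0 ≤ s) (ht : 0 ≤ t) (y : Fin d → ℝ) :
    Gp w g s y * Gp w g t y = Gp w g (s + t) y := by
  unfold Gp
  rw [← Finset.prod_mul_distrib]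
  refine Finset.prod_congr rfl fun p _ => ?_
  have h := hw.nonneg p.1 p.2
  rw [← ENNReal.rpow_add_of_nonneg _ _ (by positivity) (by positivity), mul_add]

theorem Ip_mul {d : ℕ} (w : Fin d → Fin d → ℝ) (hw : IsWeight w)
    (g : Fin d → Fin d → ℝ × ℝ → ℝ≥0∞) (s t : ℝ) (hs : 0 ≤ s) (ht : 0 ≤ t) :
    Ip w g s * Ip w g t = Ip w g (s + t) := by
  unfold Ip
  rw [← Finset.prod_mul_distrib]
  refine Finset.prod_congr rfl fun p _ => ?_
  have h := hw.nonneg p.1 p.2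
  rw [← ENNReal.rpow_add_of_nonneg _ _ (by positivity) (by positivity), mul_add]

theorem finner_Gp {d : ℕ} (w : Fin d → Fin d → ℝ) (hw : IsWeight w)
    (g : Fin d → Fin d → ℝ × ℝ → ℝ≥0∞) (hg : ∀ i j, Measurable (g i j)) :
    ∫⁻ y, Gp w g 1 y ≤ Ip w g 1 := by
  unfold Gp Ip
  simp_rw [mul_one]
  exact finner_pairs w hw g hg

/-- one pair -/
theorem one_pair (F : (Fin (n + 1) → ℝ) → ℝ≥0∞) (hF : Measurable F) (g : ℝ × ℝ → ℝ≥0∞)
    (hg : Measurable g) (i j : Fin (n + 1)) {β : Type} [Fintype β]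
    (σ : Fin 2 ⊕ β ≃ Fin (n + 1)) (hi : σ (Sum.inl 0) = i) (hj : σ (Sum.inl 1) = j) (p τ : ℝ)
    (hpτ : p.HolderConjugate (1 / τ)) (hτ : 0 < τ) (K : ℝ≥0∞)
    (hK : ∫⁻ z : Fin 2 → ℝ, (∫⁻ w : β → ℝ, F (glue σ (z, w))) ^ p ≤ K) :
    ∫⁻ y, F y * g (y i, y j) ^ τ ≤ K ^ (1 / p) * (∫⁻ z, g z) ^ τ := by
  have hm : Measurable fun y : Fin (n + 1) → ℝ => F y * g (y i, y j) ^ τ :=
    hF.mul ((hg.comp ((measurable_pi_apply _).prodMk (measurable_pi_apply _))).pow_const _)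
  have hz : ∀ z : Fin 2 → ℝ, Measurable fun w : β → ℝ => F (glue σ (z, w)) := fun z =>
    hF.comp ((glue_meas σ).comp measurable_prodMk_left)
  have hM : Measurable fun z : Fin 2 → ℝ => ∫⁻ w : β → ℝ, F (glue σ (z, w)) :=
    (hF.comp (glue_meas σ)).lintegral_prod_right'
  have hG : Measurable fun z : Fin 2 → ℝ => g (z 0, z 1) ^ τ :=
    (hg.comp ((measurable_pi_apply _).prodMk (measurable_pi_apply _))).pow_const _
  rw [lint_glue σ _ hm]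
  have h1 : ∀ z : Fin 2 → ℝ, ∫⁻ w : β → ℝ, F (glue σ (z, w)) *
      g (glue σ (z, w) i, glue σ (z, w) j) ^ τ =
      (∫⁻ w : β → ℝ, F (glue σ (z, w))) * g (z 0, z 1) ^ τ := by
    intro z
    have g0 : ∀ w, glue σ (z, w) i = z 0 := fun w => by rw [← hi, glue_inl]
    have g1 : ∀ w, glue σ (z, w) j = z 1 := fun w => by rw [← hj, glue_inl]
    simp_rw [g0, g1]
    exact lintegral_mul_const _ (hz z)
  simp_rw [h1]
  have h2 := ENNReal.lintegral_mul_le_Lp_mul_Lq (volume : Measure (Fin 2 → ℝ)) hpτ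
    hM.aemeasurable hG.aemeasurable
  refine h2.trans (mul_le_mul' (ENNReal.rpow_le_rpow hK ?_) (le_of_eq ?_))
  · have := hpτ.pos
    positivity
  · have e1 : ∀ z : Fin 2 → ℝ, (g (z 0, z 1) ^ τ) ^ (1 / τ) = g (z 0, z 1) := fun z => by
      rw [← ENNReal.rpow_mul, mul_one_div_cancel hτ.ne', ENNReal.rpow_one]
    simp_rw [e1]
    rw [one_div_one_div]
    congr 1
    have h3 := (volume_preserving_finTwoArrow ℝ).lintegral_comp hg
    exact h3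

/-- the estimate for exponents near the critical one -/
theorem near (n : ℕ) (hn : 1 ≤ n) (q : ℝ) (hq : 2 * ((n : ℝ) + 1) / n < q)
    (hq2 : (1 - 2 / q) * ((n : ℝ) + 1) / 2 < 1) : ∃ C : ℝ≥0,
    ∀ (A : Matrix (Fin (n + 1)) (Fin (n + 1)) ℝ), A.det ≠ 0 →
      ∀ f : (Fin n → ℝ) → ℂ, Measurable f → (∀ ξ, ‖f ξ‖ ≤ 1) →
      ∀ (w : Fin (n + 1) → Fin (n + 1) → ℝ), IsWeight w →
      ∀ (g : Fin (n + 1) → Fin (n + 1) → ℝ × ℝ → ℝ≥0∞), (∀ i j, Measurable (g i j)) →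
        ∫⁻ y, ‖Ex f (A⁻¹.mulVec y)‖ₑ * Gp w g (1 - 1 / q) y ≤
          C * (ENNReal.ofReal |A.det| ^ (1 / q) * Ip w g (1 - 1 / q)) := by
  have hn0 : (1 : ℝ) ≤ n := by exact_mod_cast hn
  have hq0 : 0 < q := lt_trans (by positivity) hq
  set τ : ℝ := (1 - 2 / q) * ((n : ℝ) + 1) / 2 with hτ
  have hτ1 : 1 / 2 < τ := by
    rw [div_lt_iff₀ (by linarith)] at hq
    have h1 : (2 / q) * (n + 1) < n := by
      rw [div_mul_eq_mul_div, div_lt_iff₀ hq0]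
      linarith
    rw [hτ]
    nlinarith
  have hτ0 : 0 < τ := by linarith
  set p : ℝ := 1 / (1 - τ) with hp
  have h1τ : 0 < 1 - τ := by linarith
  have hp2 : 2 < p := by
    rw [hp, lt_div_iff₀ h1τ]
    linarith
  have hp0 : 0 < p := by linarith
  have hip : 1 / p = 1 - τ := by rw [hp, one_div_one_div]
  have hconj : p.HolderConjugate (1 / τ) := by
    rw [Real.holderConjugate_iff]
    refine ⟨by linarith, ?_⟩
    rw [← one_div, hip, one_div, inv_inv]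
    ring
  obtain ⟨C, hC⟩ := pair n hn p hp2
  set d : ℝ := (n : ℝ) + 1 with hd
  have hd0 : 0 < d := by positivity
  set b : ℝ := 1 - 2 / q with hb
  have hτb : τ * (2 / d) = b := by rw [hτ]; field_simp
  have hb0 : 0 < b := by
    rw [← hτb]; positivity
  have hb1 : b ≤ 1 := by
    rw [hb]
    have : 0 < 2 / q := by positivity
    linarith
  refine ⟨(C ^ (1 / p)) ^ (1 / 2 : ℝ), ?_⟩
  intro A hA f hf hf1 w hw g hg
  obtain ⟨e, r, hr, hdet, he, hdi, htr⟩ := gs A hA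
  set a0 : ℝ≥0∞ := ENNReal.ofReal |A.det| with ha0
  have ha0' : a0 ≠ 0 := by
    rw [ha0, Ne, ENNReal.ofReal_eq_zero, not_le]
    exact abs_pos.2 hA
  have ha0t : a0 ≠ ∞ := ENNReal.ofReal_ne_top
  set F : (Fin (n + 1) → ℝ) → ℝ≥0∞ := fun y => ‖Ex f (A⁻¹.mulVec y)‖ₑ with hF
  have hFm : Measurable F := ((Ex_cont f hf hf1).measurable.comp (mulVec_meas _)).enorm
  set θ : (Σ _ : Fin (n + 1), Fin (n + 1)) → ℝ := fun s => w s.1 s.2 * (2 / d) with hθ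
  have hθ0 : ∀ s ∈ Pr (n + 1), 0 ≤ θ s := fun s _ => mul_nonneg (hw.nonneg _ _) (by positivity)
  have hθ1 : ∑ s ∈ Pr (n + 1), θ s = 1 := by
    rw [hθ]
    simp only
    rw [← Finset.sum_mul]
    have h1 := sum_w w hw
    have h2 : ((n + 1 : ℕ) : ℝ) = d := by push_cast; rfl
    rw [h2] at h1
    have h3 : ∑ p ∈ Pr (n + 1), w p.1 p.2 = d / 2 := by linarith
    rw [h3]
    field_simp
  -- the energy
  have henergy : ∫⁻ y, F y ^ 2 * Gp w g b y ≤ (C : ℝ≥0∞) ^ (1 / p) * (a0 ^ (1 - b) * Ip w g b) := by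
    have h1 : ∀ y, F y ^ 2 * Gp w g b y = ∏ s ∈ Pr (n + 1),
        (F y ^ 2 * g s.1 s.2 (y s.1, y s.2) ^ τ) ^ θ s := by
      intro y
      have h2 : F y ^ 2 = ∏ s ∈ Pr (n + 1), (F y ^ 2) ^ θ s := by
        rw [prod_rpow_sum _ _ hθ0, hθ1, ENNReal.rpow_one]
      nth_rewrite 1 [h2]
      unfold Gp
      rw [← Finset.prod_mul_distrib]
      refine Finset.prod_congr rfl fun s hs => ?_
      rw [ENNReal.mul_rpow_of_nonneg _ _ (hθ0 s hs), ← ENNReal.rpow_mul]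
      congr 2
      rw [hθ, ← hτb]
      ring
    simp_rw [h1]
    have hms : ∀ s ∈ Pr (n + 1), AEMeasurable (fun y : Fin (n + 1) → ℝ =>
        F y ^ 2 * g s.1 s.2 (y s.1, y s.2) ^ τ) volume := fun s _ =>
      ((hFm.pow_const 2).mul (((hg _ _).comp ((measurable_pi_apply _).prodMk
        (measurable_pi_apply _))).pow_const _)).aemeasurable
    refine (ENNReal.lintegral_prod_norm_pow_le (Pr (n + 1)) hms hθ1 hθ0).trans ?_
    have h3 : ∀ s ∈ Pr (n + 1), (∫⁻ y, F y ^ 2 * g s.1 s.2 (y s.1, y s.2) ^ τ) ^ θ s ≤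
        (((C : ℝ≥0∞) ^ (1 / p) * a0) ^ θ s *
          (ENNReal.ofReal ((r s.1 * r s.2)⁻¹) ^ w s.1 s.2) ^ b) *
          (∫⁻ z, g s.1 s.2 z) ^ (w s.1 s.2 * b) := by
      intro s hs
      have hij : s.1 < s.2 := (mem_Pr s).1 hs
      obtain ⟨σ, hσi, hσj, _⟩ := exists_split s.1 s.2 hij.ne
      have h4 := hC A e r hA hr he hdi htr s.1 s.2 hij σ hσi hσj f hf hf1
      have h5 := one_pair (fun y => F y ^ 2) (hFm.pow_const 2) (g s.1 s.2) (hg _ _) s.1 s.2 σ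
        hσi hσj p τ hconj hτ0 _ h4
      refine (ENNReal.rpow_le_rpow h5 (hθ0 s hs)).trans (le_of_eq ?_)
      set bb : ℝ≥0∞ := ENNReal.ofReal ((r s.1 * r s.2)⁻¹) with hbb
      have e1 : ((C : ℝ≥0∞) * (a0 ^ p * bb ^ (p - 1))) ^ (1 / p) =
          (C : ℝ≥0∞) ^ (1 / p) * a0 * bb ^ τ := by
        have hip0 : 0 ≤ 1 / p := by positivity
        rw [ENNReal.mul_rpow_of_nonneg _ _ hip0, ENNReal.mul_rpow_of_nonneg _ _ hip0,
          ← ENNReal.rpow_mul, ← ENNReal.rpow_mul, mul_one_div_cancel hp0.ne', ENNReal.rpow_one,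
          mul_assoc]
        congr 3
        rw [hip]
        have : p * (1 - τ) = 1 := by rw [← hip, mul_one_div_cancel hp0.ne']
        linarith
      rw [e1, ENNReal.mul_rpow_of_nonneg _ _ (hθ0 s hs), ENNReal.mul_rpow_of_nonneg _ _ (hθ0 s hs),
        ← ENNReal.rpow_mul, ← ENNReal.rpow_mul, ← ENNReal.rpow_mul]
      have e2 : τ * θ s = w s.1 s.2 * b := by
        rw [hθ, ← hτb]
        ring
      rw [e2]
    refine (Finset.prod_le_prod' h3).trans (le_of_eq ?_)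
    rw [Finset.prod_mul_distrib, Finset.prod_mul_distrib, prod_rpow_sum _ _ hθ0, hθ1,
      ENNReal.rpow_one, ENNReal.prod_rpow_of_nonneg hb0.le, prod_areas w hw r hr, hdet]
    have e3 : ENNReal.ofReal (|A.det|⁻¹) = a0⁻¹ := by
      rw [ha0, ENNReal.ofReal_inv_of_pos (abs_pos.2 hA)]
    rw [e3]
    have e4 : a0 * (a0⁻¹) ^ b = a0 ^ (1 - b) := by
      rw [sub_eq_add_neg, ENNReal.rpow_add _ _ ha0' ha0t, ENNReal.rpow_one, ENNReal.rpow_neg,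
        ENNReal.inv_rpow]
    rw [← e4]
    unfold Ip
    ring
  -- Cauchy-Schwarz
  have hs : (1 - 1 / q) = 1 / 2 + b / 2 := by
    rw [hb]
    ring
  have h2 : ∀ y, F y * Gp w g (1 - 1 / q) y =
      (Gp w g 1 y) ^ (1 / 2 : ℝ) * (F y ^ 2 * Gp w g b y) ^ (1 / 2 : ℝ) := by
    intro y
    rw [ENNReal.mul_rpow_of_nonneg _ _ (by norm_num : (0 : ℝ) ≤ 1 / 2), Gp_pow _ _ _ _ (by norm_num),
      Gp_pow _ _ _ _ (by norm_num), hs, ← Gp_mul w hw g _ _ (by norm_num) (by positivity)]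
    have e1 : (F y ^ 2) ^ (1 / 2 : ℝ) = F y := by
      rw [← ENNReal.rpow_natCast, ← ENNReal.rpow_mul]
      norm_num
    rw [e1, one_mul, mul_one_div]
    ring
  rw [show (∫⁻ y, ‖Ex f (A⁻¹.mulVec y)‖ₑ * Gp w g (1 - 1 / q) y) = _ from lintegral_congr h2]
  have hh : (2 : ℝ).HolderConjugate 2 := by
    rw [Real.holderConjugate_iff]
    norm_num
  have hG1 : Measurable fun y => (Gp w g 1 y) ^ (1 / 2 : ℝ) := (Gp_meas w g hg 1).pow_const _
  have hG2 : Measurable fun y => (F y ^ 2 * Gp w g b y) ^ (1 / 2 : ℝ) :=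
    ((hFm.pow_const 2).mul (Gp_meas w g hg b)).pow_const _
  have h3 := ENNReal.lintegral_mul_le_Lp_mul_Lq (volume : Measure (Fin (n + 1) → ℝ)) hh
    hG1.aemeasurable hG2.aemeasurable
  have e5 : ∀ x : ℝ≥0∞, (x ^ (1 / 2 : ℝ)) ^ (2 : ℝ) = x := fun x => by
    rw [← ENNReal.rpow_mul]
    norm_num
  simp_rw [e5] at h3
  refine h3.trans ?_
  have h4 : (∫⁻ y, Gp w g 1 y) ^ (1 / 2 : ℝ) ≤ Ip w g (1 / 2) := by
    refine (ENNReal.rpow_le_rpow (finner_Gp w hw g hg) (by norm_num)).trans (le_of_eq ?_)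
    rw [Ip_pow _ _ _ _ (by norm_num), one_mul]
  have h5 : (∫⁻ y, F y ^ 2 * Gp w g b y) ^ (1 / 2 : ℝ) ≤
      ((C : ℝ≥0∞) ^ (1 / p)) ^ (1 / 2 : ℝ) * (a0 ^ (1 / q) * Ip w g (b / 2)) := by
    refine (ENNReal.rpow_le_rpow henergy (by norm_num)).trans (le_of_eq ?_)
    rw [ENNReal.mul_rpow_of_nonneg _ _ (by norm_num : (0 : ℝ) ≤ 1 / 2),
      ENNReal.mul_rpow_of_nonneg _ _ (by norm_num : (0 : ℝ) ≤ 1 / 2), Ip_pow _ _ _ _ (by norm_num),
      ← ENNReal.rpow_mul a0]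
    congr 2
    · congr 1
      rw [hb]
      ring
    · congr 1
      ring
  calc (∫⁻ y, Gp w g 1 y) ^ (1 / 2 : ℝ) * (∫⁻ y, F y ^ 2 * Gp w g b y) ^ (1 / 2 : ℝ)
      ≤ Ip w g (1 / 2) * (((C : ℝ≥0∞) ^ (1 / p)) ^ (1 / 2 : ℝ) *
          (a0 ^ (1 / q) * Ip w g (b / 2))) := mul_le_mul' h4 h5
    _ = ((C : ℝ≥0∞) ^ (1 / p)) ^ (1 / 2 : ℝ) * (a0 ^ (1 / q) *
          (Ip w g (1 / 2) * Ip w g (b / 2))) := by ring
    _ = _ := by
        rw [Ip_mul w hw g _ _ (by norm_num) (by positivity), ← hs,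
          ENNReal.coe_rpow_of_nonneg _ (by norm_num : (0 : ℝ) ≤ 1 / 2),
          ENNReal.coe_rpow_of_nonneg _ (by positivity : (0 : ℝ) ≤ 1 / p)]

/-- the estimate for all exponents -/
theorem all (n : ℕ) (hn : 1 ≤ n) (q : ℝ) (hq : 2 * ((n : ℝ) + 1) / n < q) : ∃ C : ℝ≥0,
    ∀ (A : Matrix (Fin (n + 1)) (Fin (n + 1)) ℝ), A.det ≠ 0 →
      ∀ f : (Fin n → ℝ) → ℂ, Measurable f → (∀ ξ, ‖f ξ‖ ≤ 1) →
      ∀ (w : Fin (n + 1) → Fin (n + 1) → ℝ), IsWeight w →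
      ∀ (g : Fin (n + 1) → Fin (n + 1) → ℝ × ℝ → ℝ≥0∞), (∀ i j, Measurable (g i j)) →
        ∫⁻ y, ‖Ex f (A⁻¹.mulVec y)‖ₑ * Gp w g (1 - 1 / q) y ≤
          C * (ENNReal.ofReal |A.det| ^ (1 / q) * Ip w g (1 - 1 / q)) := by
  have hn0 : (1 : ℝ) ≤ n := by exact_mod_cast hn
  have hq0 : 0 < q := lt_trans (by positivity) hq
  rcases lt_or_ge ((1 - 2 / q) * ((n : ℝ) + 1) / 2) 1 with h | h
  · exact near n hn q hq h
  -- an intermediate exponent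
  set b0 : ℝ := 3 / (2 * ((n : ℝ) + 1)) with hb0
  have hb01 : b0 ≤ 3 / 4 := by
    rw [hb0, div_le_div_iff₀ (by positivity) (by norm_num)]
    linarith
  set q₀ : ℝ := 2 / (1 - b0) with hq₀
  have h1b : 0 < 1 - b0 := by linarith
  have hq₀0 : 0 < q₀ := by positivity
  have hb0' : 1 - 2 / q₀ = b0 := by
    rw [hq₀]
    field_simp
    ring
  have hτ0 : (1 - 2 / q₀) * ((n : ℝ) + 1) / 2 = 3 / 4 := by
    rw [hb0', hb0]
    field_simp
    norm_num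
  have hq₀1 : 2 * ((n : ℝ) + 1) / n < q₀ := by
    rw [div_lt_iff₀ (by linarith)]
    have h1 : (1 - 2 / q₀) * ((n : ℝ) + 1) = 3 / 2 := by linarith
    have h2 : (2 / q₀) * ((n : ℝ) + 1) < n := by linarith
    rw [div_mul_eq_mul_div, div_lt_iff₀ hq₀0] at h2
    linarith
  have hqq : q₀ < q := by
    have h1 : (1 - 2 / q₀) * ((n : ℝ) + 1) / 2 < (1 - 2 / q) * ((n : ℝ) + 1) / 2 := by
      rw [hτ0]; linarith
    have h2 : 2 / q < 2 / q₀ := by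
      by_contra hcon
      push Not at hcon
      have : (1 - 2 / q) * ((n : ℝ) + 1) ≤ (1 - 2 / q₀) * ((n : ℝ) + 1) :=
        mul_le_mul_of_nonneg_right (by linarith) (by positivity)
      linarith
    rw [div_lt_div_iff₀ hq0 hq₀0] at h2
    linarith
  obtain ⟨C, hC⟩ := near n hn q₀ hq₀1 (by rw [hτ0]; norm_num)
  set θ : ℝ := q₀ / q with hθ
  have hθ0 : 0 < θ := by positivity
  have hθ1 : θ < 1 := by rw [hθ, div_lt_one hq0]; exact hqq
  refine ⟨C ^ θ * ((2 : ℝ≥0) ^ n) ^ (1 - θ), ?_⟩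
  intro A hA f hf hf1 w hw g hg
  have h1 := hC A hA f hf hf1 w hw g hg
  set a0 : ℝ≥0∞ := ENNReal.ofReal |A.det| with ha0
  set F : (Fin (n + 1) → ℝ) → ℝ≥0∞ := fun y => ‖Ex f (A⁻¹.mulVec y)‖ₑ with hF
  have hFm : Measurable F := ((Ex_cont f hf hf1).measurable.comp (mulVec_meas _)).enorm
  have h1q₀ : 0 ≤ 1 - 1 / q₀ := by
    have : 1 / q₀ ≤ 1 := by
      rw [div_le_one hq₀0, hq₀, le_div_iff₀ h1b]
      have : 0 < b0 := by positivity
      linarith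
    linarith
  have hexp : 1 - 1 / q = (1 - 1 / q₀) * θ + (1 - θ) := by
    rw [hθ]
    field_simp
    ring
  have hsp : ∀ y, F y * Gp w g (1 - 1 / q) y =
      (F y * Gp w g (1 - 1 / q₀) y) ^ θ * (F y * Gp w g 1 y) ^ (1 - θ) := by
    intro y
    rw [ENNReal.mul_rpow_of_nonneg _ _ hθ0.le, ENNReal.mul_rpow_of_nonneg _ _ (by linarith),
      Gp_pow _ _ _ _ hθ0.le, Gp_pow _ _ _ _ (by linarith), hexp, one_mul,
      ← Gp_mul w hw g _ _ (by positivity) (by linarith)]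
    have e1 : F y ^ θ * F y ^ (1 - θ) = F y := by
      rw [← ENNReal.rpow_add_of_nonneg _ _ hθ0.le (by linarith)]
      simp
    nth_rewrite 1 [← e1]
    ring
  rw [show (∫⁻ y, ‖Ex f (A⁻¹.mulVec y)‖ₑ * Gp w g (1 - 1 / q) y) = _ from lintegral_congr hsp]
  have hconj : (1 / θ).HolderConjugate (1 / (1 - θ)) := by
    rw [Real.holderConjugate_iff]
    refine ⟨?_, ?_⟩
    · rw [lt_div_iff₀ hθ0]; linarith
    · rw [← one_div, ← one_div, one_div_one_div, one_div_one_div]; ring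
  have hm1 : Measurable fun y => (F y * Gp w g (1 - 1 / q₀) y) ^ θ :=
    (hFm.mul (Gp_meas w g hg _)).pow_const _
  have hm2 : Measurable fun y => (F y * Gp w g 1 y) ^ (1 - θ) :=
    (hFm.mul (Gp_meas w g hg _)).pow_const _
  have h2 := ENNReal.lintegral_mul_le_Lp_mul_Lq (volume : Measure (Fin (n + 1) → ℝ)) hconj
    hm1.aemeasurable hm2.aemeasurable
  have e1 : ∀ x : ℝ≥0∞, (x ^ θ) ^ (1 / θ) = x := fun x => by
    rw [← ENNReal.rpow_mul, mul_one_div_cancel hθ0.ne', ENNReal.rpow_one]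
  have e2 : ∀ x : ℝ≥0∞, (x ^ (1 - θ)) ^ (1 / (1 - θ)) = x := fun x => by
    rw [← ENNReal.rpow_mul, mul_one_div_cancel (by linarith : 1 - θ ≠ 0), ENNReal.rpow_one]
  simp_rw [e1, e2, one_div_one_div] at h2
  refine h2.trans ?_
  have h3 : ∫⁻ y, F y * Gp w g 1 y ≤ 2 ^ n * Ip w g 1 := by
    calc ∫⁻ y, F y * Gp w g 1 y ≤ ∫⁻ y, 2 ^ n * Gp w g 1 y :=
          lintegral_mono fun y => mul_le_mul' (Ex_bd f hf1 _) le_rfl
      _ = 2 ^ n * ∫⁻ y, Gp w g 1 y := lintegral_const_mul _ (Gp_meas w g hg 1)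
      _ ≤ _ := mul_le_mul' le_rfl (finner_Gp w hw g hg)
  calc (∫⁻ y, F y * Gp w g (1 - 1 / q₀) y) ^ θ * (∫⁻ y, F y * Gp w g 1 y) ^ (1 - θ)
      ≤ (C * (a0 ^ (1 / q₀) * Ip w g (1 - 1 / q₀))) ^ θ * (2 ^ n * Ip w g 1) ^ (1 - θ) :=
        mul_le_mul' (ENNReal.rpow_le_rpow h1 hθ0.le) (ENNReal.rpow_le_rpow h3 (by linarith))
    _ = ((C : ℝ≥0∞) ^ θ * (2 ^ n) ^ (1 - θ)) * (a0 ^ (1 / q) *
          (Ip w g ((1 - 1 / q₀) * θ) * Ip w g (1 - θ))) := by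
        rw [ENNReal.mul_rpow_of_nonneg _ _ hθ0.le, ENNReal.mul_rpow_of_nonneg _ _ hθ0.le,
          ENNReal.mul_rpow_of_nonneg _ _ (by linarith : 0 ≤ 1 - θ), Ip_pow _ _ _ _ hθ0.le,
          Ip_pow _ _ _ _ (by linarith), ← ENNReal.rpow_mul a0, one_mul]
        have e3 : 1 / q₀ * θ = 1 / q := by
          rw [hθ]
          field_simp
        rw [e3]
        ring
    _ = _ := by
        rw [Ip_mul w hw g _ _ (by positivity) (by linarith), ← hexp, ENNReal.coe_mul,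
          ENNReal.coe_rpow_of_nonneg _ hθ0.le, ENNReal.coe_rpow_of_nonneg _ (by linarith),
          ENNReal.coe_pow]
        rfl

end Pool.Agent.T9h8.PP
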